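import Mathlib
import Pool.Agent.R362.SH.Rel

/-!
# Rational representations as Heilbronn functions
-/

set_option autoImplicit false
set_option linter.unusedSectionVars false

namespace Pool.Agent.R362.BS

open Pool.Agent.H302R2 Pool.Agent.H541R3.ART Pool.Agent.R362.SH Module

variable {G : Type} [Group G] {V : Type} [AddCommGroup V] [Module ℚ V]

/-- the character of a rational representation, with complex values -/
noncomputable def chi (ρ : Representation ℚ G V) (g : G) : ℂ := ((ρ.character g : ℚ) : ℂ)

/-- the vectors on which the elements `h` of the subgroup `H` act as the sign `η h` -/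
def eig (ρ : Representation ℚ G V) (H : Subgroup G) (η : H →* ℤˣ) : Submodule ℚ V where
  carrier := {v | ∀ h : H, ρ h v = ((η h : ℤ) : ℚ) • v}
  add_mem' := by
    intro a b ha hb h
    rw [map_add, ha h, hb h, smul_add]
  zero_mem' := by
    intro h
    rw [map_zero, smul_zero]
  smul_mem' := by
    intro c v hv h
    rw [map_smul, hv h, smul_comm]

lemma mem_eig {ρ : Representation ℚ G V} {H : Subgroup G} {η : H →* ℤˣ} {v : V} :
    v ∈ eig ρ H η ↔ ∀ h : H, ρ h v = ((η h : ℤ) : ℚ) • v := Iff.rfl

variable [Finite G] [FiniteDimensional ℚ V] (ρ : Representation ℚ G V)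

/-- the complexification in a basis -/
noncomputable def cRep : Representation ℂ G (Fin (finrank ℚ V) → ℂ) where
  toFun g := Matrix.toLin' ((LinearMap.toMatrix (finBasis ℚ V) (finBasis ℚ V) (ρ g)).map
    (algebraMap ℚ ℂ))
  map_one' := by
    rw [map_one, LinearMap.toMatrix_one, Matrix.map_one _ (map_zero _) (map_one _),
      Matrix.toLin'_one]
    rfl
  map_mul' a b := by
    rw [map_mul, LinearMap.toMatrix_mul, Matrix.map_mul, Matrix.toLin'_mul]
    rfl

lemma cRep_char (g : G) : (cRep ρ).character g = chi ρ g := by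
  unfold Representation.character chi
  change LinearMap.trace ℂ _ (Matrix.toLin' ((LinearMap.toMatrix (finBasis ℚ V) (finBasis ℚ V)
    (ρ g)).map (algebraMap ℚ ℂ))) = _
  rw [Matrix.trace_toLin'_eq]
  unfold Representation.character
  rw [LinearMap.trace_eq_matrix_trace ℚ (finBasis ℚ V) (ρ g)]
  simp [Matrix.trace]

lemma chi_heil : IsHeilbronn (chi ρ) where
  conj g h := by
    unfold chi
    rw [ρ.char_conj g h]
  mult H ψ := by
    classical
    have : Fintype H := Fintype.ofFinite H
    have hH : (Nat.card H : ℂ) ≠ 0 := by exact_mod_cast Nat.card_pos.ne'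
    have : Invertible (Nat.card H : ℂ) := invertibleOfNonzero hH
    let σ : Representation ℂ H (Fin (finrank ℚ V) → ℂ) := (cRep ρ).comp H.subtype
    have h := Representation.card_inv_mul_sum_char_mul_char_eq_finrank (linRep ψ) σ
    refine ⟨Module.finrank ℂ (Representation.IntertwiningMap (linRep ψ) σ), ?_⟩
    rw [← h, finsum_eq_sum_of_fintype]
    have h2 : ∀ x : H, σ.character x * (linRep ψ).character x⁻¹
        = chi ρ (x : G) * (((ψ x)⁻¹ : ℂˣ) : ℂ) := by
      intro x
      rw [linRep_char, map_inv, ← cRep_char]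
      rfl
    rw [Finset.sum_congr rfl (fun x _ => h2 x)]
    field_simp

lemma chi_one : chi ρ 1 = (finrank ℚ V : ℂ) := by
  unfold chi
  rw [Representation.char_one]
  simp

/-- the twist by a sign character -/
def twistRep (ρ : Representation ℚ G V) (H : Subgroup G) (η : H →* ℤˣ) :
    Representation ℚ H V where
  toFun h := ((η h : ℤ) : ℚ) • ρ h
  map_one' := by simp
  map_mul' a b := by
    rw [map_mul, Subgroup.coe_mul, map_mul]
    ext v
    simp [mul_smul]
    rw [smul_comm]

lemma sq_unit (u : ℤˣ) : ((u : ℤ) : ℚ) * ((u : ℤ) : ℚ) = 1 := by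
  rcases Int.units_eq_one_or u with h | h <;> rw [h] <;> norm_num

lemma eig_eq_invariants (H : Subgroup G) (η : H →* ℤˣ) :
    eig ρ H η = (twistRep ρ H η).invariants := by
  ext v
  rw [mem_eig, Representation.mem_invariants]
  refine forall_congr' fun h => ?_
  change ρ h v = _ ↔ ((η h : ℤ) : ℚ) • ρ h v = v
  constructor
  · intro h1
    rw [h1, smul_smul, sq_unit, one_smul]
  · intro h1
    conv_rhs => rw [← h1]
    rw [smul_smul, sq_unit, one_smul]

/-- the dimension of the eigenspace as a multiplicity -/
lemma eig_finrank (H : Subgroup G) (η : H →* ℤˣ) :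
    ∑ᶠ h : H, chi ρ h * (((signToC.comp η h)⁻¹ : ℂˣ) : ℂ)
      = (finrank ℚ (eig ρ H η) : ℂ) * (Nat.card H : ℂ) := by
  classical
  have : Fintype H := Fintype.ofFinite H
  have hH : (Nat.card H : ℚ) ≠ 0 := by exact_mod_cast Nat.card_pos.ne'
  have : Invertible (Nat.card H : ℚ) := invertibleOfNonzero hH
  have h := Representation.card_inv_mul_sum_char_eq_finrank (twistRep ρ H η)
  rw [← eig_eq_invariants] at h
  have h1 : ∑ x : H, (twistRep ρ H η).character x
      = (finrank ℚ (eig ρ H η) : ℚ) * (Nat.card H : ℚ) := by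
    rw [← h]
    field_simp
  rw [finsum_eq_sum_of_fintype]
  have h2 : ∀ x : H, chi ρ x * (((signToC.comp η x)⁻¹ : ℂˣ) : ℂ)
      = (((twistRep ρ H η).character x : ℚ) : ℂ) := by
    intro x
    have h3 : (twistRep ρ H η).character x = ((η x : ℤ) : ℚ) * ρ.character (x : G) := by
      change LinearMap.trace ℚ V (((η x : ℤ) : ℚ) • ρ (x : G)) = _
      rw [map_smul]
      rfl
    rw [h3]
    unfold chi
    rw [MonoidHom.comp_apply]
    rcases Int.units_eq_one_or (η x) with h4 | h4 <;> rw [h4]
    · simp
    · simp [signToC]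
  rw [Finset.sum_congr rfl fun x _ => h2 x, ← Rat.cast_sum, h1]
  push_cast
  rfl

end Pool.Agent.R362.BS
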