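import Mathlib
import Pool.Agent.R362.BS.Rep

/-!
# Comparison of the eigenvalues of the elements in the analytic and the arithmetic class function
-/

set_option autoImplicit false
set_option linter.unusedSectionVars false

namespace Pool.Agent.R362.BS

open Pool.Agent.H302R2 Pool.Agent.H541R3.ART Pool.Agent.R362.SH Module

open Classical in
/-- sums of products of linear characters -/
lemma lin_pair {H : Type} [Group H] [Finite H] (φ ψ : H →* ℂˣ) :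
    ∑ᶠ h : H, ((ψ h : ℂˣ) : ℂ) * (((φ h)⁻¹ : ℂˣ) : ℂ)
      = ((if φ = ψ then 1 else 0 : ℕ) : ℂ) * (Nat.card H : ℂ) := by
  classical
  have : Fintype H := Fintype.ofFinite _
  rw [finsum_eq_sum_of_fintype]
  by_cases h : φ = ψ
  · subst h
    rw [if_pos rfl]
    have h1 : ∀ x : H, ((φ x : ℂˣ) : ℂ) * (((φ x)⁻¹ : ℂˣ) : ℂ) = 1 := fun x => Units.mul_inv _
    rw [Finset.sum_congr rfl fun x _ => h1 x]
    simp
  · rw [if_neg h]
    have hne : ψ * φ⁻¹ ≠ 1 := by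
      intro h1
      exact h (mul_inv_eq_one.mp h1).symm
    have h2 : ∑ x : H, (((ψ * φ⁻¹) x : ℂˣ) : ℂ) = 0 := by
      refine sum_hom_units_eq_zero ((Units.coeHom ℂ).comp (ψ * φ⁻¹)) ?_
      intro h2
      apply hne
      ext g
      exact congrArg (fun f : H →* ℂ => f g) h2
    have h3 : ∀ x : H, ((ψ x : ℂˣ) : ℂ) * (((φ x)⁻¹ : ℂˣ) : ℂ) = (((ψ * φ⁻¹) x : ℂˣ) : ℂ) := by
      intro x
      simp
    rw [Finset.sum_congr rfl fun x _ => h3 x, h2]
    simp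

open Classical in
lemma two_lin {H : Type} [Group H] [Finite H] (φ ψ₁ ψ₂ : H →* ℂˣ) (f : H → ℂ)
    (hf : ∀ h, f h = ((ψ₁ h : ℂˣ) : ℂ) + ((ψ₂ h : ℂˣ) : ℂ)) :
    ∑ᶠ h : H, f h * (((φ h)⁻¹ : ℂˣ) : ℂ)
      = (((if φ = ψ₁ then 1 else 0) + (if φ = ψ₂ then 1 else 0) : ℕ) : ℂ) * (Nat.card H : ℂ) := by
  have h1 : ∀ h : H, f h * (((φ h)⁻¹ : ℂˣ) : ℂ)
      = ((ψ₁ h : ℂˣ) : ℂ) * (((φ h)⁻¹ : ℂˣ) : ℂ) + ((ψ₂ h : ℂˣ) : ℂ) * (((φ h)⁻¹ : ℂˣ) : ℂ) := by
    intro h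
    rw [hf, add_mul]
  rw [finsum_congr h1, finsum_add_distrib (Set.toFinite _) (Set.toFinite _), lin_pair, lin_pair]
  push_cast
  ring

variable {G : Type} [Group G] [Finite G] {V : Type} [AddCommGroup V] [Module ℚ V]
  [FiniteDimensional ℚ V] {ρ : Representation ℚ G V} {θ : G → ℂ}

/-- the multiplicity of a sign character of a solvable subgroup in the representation is its
multiplicity in `θ`, if this is at most one -/
def Small (θ : G → ℂ) (ρ : Representation ℚ G V) : Prop :=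
  ∀ (H : Subgroup G), Group.IsSolvable H → ∀ (η : H →* ℤˣ) (n : ℕ), n ≤ 1 →
    ∑ᶠ h : H, θ h * (((signToC.comp η h)⁻¹ : ℂˣ) : ℂ) = (n : ℂ) * (Nat.card H : ℂ) →
    finrank ℚ (eig ρ H η) = n

lemma count_two (hb : Small θ ρ) {H : Subgroup G} (hH : Group.IsSolvable H)
    {ψ₁ ψ₂ φ₁ φ₂ : H →* ℂˣ} (hψ : ∀ h : H, θ h = ((ψ₁ h : ℂˣ) : ℂ) + ((ψ₂ h : ℂˣ) : ℂ))
    (hφ : ∀ h : H, chi ρ h = ((φ₁ h : ℂˣ) : ℂ) + ((φ₂ h : ℂˣ) : ℂ)) (η : H →* ℤˣ)
    [Decidable (signToC.comp η = ψ₁)] [Decidable (signToC.comp η = ψ₂)]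
    [Decidable (signToC.comp η = φ₁)] [Decidable (signToC.comp η = φ₂)]
    (h1 : ((if signToC.comp η = ψ₁ then 1 else 0) + (if signToC.comp η = ψ₂ then 1 else 0) : ℕ)
      ≤ 1) :
    ((if signToC.comp η = φ₁ then 1 else 0) + (if signToC.comp η = φ₂ then 1 else 0) : ℕ)
      = (if signToC.comp η = ψ₁ then 1 else 0) + (if signToC.comp η = ψ₂ then 1 else 0) := by
  have h2 := two_lin (signToC.comp η) ψ₁ ψ₂ (fun h : H => θ h) hψ
  have h3 := two_lin (signToC.comp η) φ₁ φ₂ (fun h : H => chi ρ h) hφ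
  have h4 := hb H hH η _ h1 (by convert h2)
  rw [eig_finrank, h4] at h3
  have hc : (Nat.card H : ℂ) ≠ 0 := by exact_mod_cast Nat.card_pos.ne'
  have h5 := mul_right_cancel₀ hc h3
  have h6 := Nat.cast_injective (R := ℂ) h5
  rw [h6]
  congr

/-- characters of a cyclic group with the same value at a generator -/
lemma zp_ext {x : G} {H : Subgroup G} (hx : x ∈ H) (hH : ∀ h ∈ H, ∃ k : ℕ, h = x ^ k)
    {ψ φ : H →* ℂˣ} : ψ = φ ↔ ((ψ ⟨x, hx⟩ : ℂˣ) : ℂ) = ((φ ⟨x, hx⟩ : ℂˣ) : ℂ) := by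
  constructor
  · rintro rfl; rfl
  · intro h
    ext ⟨y, hy⟩
    obtain ⟨k, rfl⟩ := hH y hy
    have h1 : (⟨x ^ k, hy⟩ : H) = ⟨x, hx⟩ ^ k := rfl
    rw [h1, map_pow, map_pow, Units.val_pow_eq_pow_val, Units.val_pow_eq_pow_val, h]

lemma zp_pow {x y : G} (hy : y ∈ Subgroup.zpowers x) : ∃ k : ℕ, y = x ^ k := by
  classical
  have h := (isOfFinOrder_of_finite x).mem_zpowers_iff_mem_range_orderOf (y := y)
  rw [h, Finset.mem_image] at hy
  obtain ⟨k, -, hk⟩ := hy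
  exact ⟨k, hk.symm⟩

/-- a character of a cyclic group with value `-1` at a generator is a sign character -/
lemma exists_sign {x : G} {H : Subgroup G} (hx : x ∈ H) (hH : ∀ h ∈ H, ∃ k : ℕ, h = x ^ k)
    {φ : H →* ℂˣ} (h : ((φ ⟨x, hx⟩ : ℂˣ) : ℂ) = -1) : ∃ η : H →* ℤˣ, signToC.comp η = φ := by
  classical
  have hφ : ∀ y : H, φ y = 1 ∨ φ y = -1 := by
    rintro ⟨y, hy⟩
    obtain ⟨k, rfl⟩ := hH y hy
    have h1 : (⟨x ^ k, hy⟩ : H) = ⟨x, hx⟩ ^ k := rfl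
    have h2 : φ ⟨x, hx⟩ = -1 := by
      apply Units.ext
      rw [h]
      simp
    rw [h1, map_pow, h2]
    exact neg_one_pow_eq_or ℂˣ k
  have hne : (1 : ℂˣ) ≠ -1 := by
    intro h1
    have := congrArg (fun u : ℂˣ => (u : ℂ)) h1
    norm_num at this
  let f : H → ℤˣ := fun y => if φ y = 1 then 1 else -1
  have hf : ∀ y, signToC (f y) = φ y := by
    intro y
    rcases hφ y with h1 | h1
    · simp [f, h1]
    · have h2 : ¬ φ y = 1 := by rw [h1]; exact hne.symm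
      simp only [f, h1]
      apply Units.ext
      simp [signToC]
  have hinj : Function.Injective signToC := by
    intro a b hab
    rcases Int.units_eq_one_or a with ha | ha <;> rcases Int.units_eq_one_or b with hb | hb
    · rw [ha, hb]
    · exfalso
      rw [ha, hb, map_one] at hab
      exact signToC_neg_one hab.symm
    · exfalso
      rw [ha, hb, map_one] at hab
      exact signToC_neg_one hab
    · rw [ha, hb]
  refine ⟨{ toFun := f, map_one' := hinj (by rw [hf, map_one, map_one]),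
            map_mul' := fun a b => hinj (by rw [hf, map_mul, map_mul, hf, hf]) }, ?_⟩
  ext y
  rw [MonoidHom.comp_apply]
  exact congrArg (fun u : ℂˣ => (u : ℂ)) (hf y)

open Classical in
/-- number of entries equal to `c` -/
noncomputable def cnt (c a₁ a₂ : ℂ) : ℕ := (if c = a₁ then 1 else 0) + (if c = a₂ then 1 else 0)

lemma count_vals (hb : Small θ ρ) {y : G} {H : Subgroup G} (hHs : Group.IsSolvable H) (hy : y ∈ H)
    (hH : ∀ h ∈ H, ∃ k : ℕ, h = y ^ k)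
    {ψ₁ ψ₂ φ₁ φ₂ : H →* ℂˣ} (hψ : ∀ h : H, θ h = ((ψ₁ h : ℂˣ) : ℂ) + ((ψ₂ h : ℂˣ) : ℂ))
    (hφ : ∀ h : H, chi ρ h = ((φ₁ h : ℂˣ) : ℂ) + ((φ₂ h : ℂˣ) : ℂ)) {c : ℂ} (hc : c = 1 ∨ c = -1)
    (h1 : cnt c ((ψ₁ ⟨y, hy⟩ : ℂˣ) : ℂ) ((ψ₂ ⟨y, hy⟩ : ℂˣ) : ℂ) ≤ 1) :
    cnt c ((φ₁ ⟨y, hy⟩ : ℂˣ) : ℂ) ((φ₂ ⟨y, hy⟩ : ℂˣ) : ℂ)
      = cnt c ((ψ₁ ⟨y, hy⟩ : ℂˣ) : ℂ) ((ψ₂ ⟨y, hy⟩ : ℂˣ) : ℂ) := by
  classical
  -- the case in which there is a sign character with value `c`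
  have key : ∀ η : H →* ℤˣ, ((signToC.comp η ⟨y, hy⟩ : ℂˣ) : ℂ) = c →
      cnt c ((φ₁ ⟨y, hy⟩ : ℂˣ) : ℂ) ((φ₂ ⟨y, hy⟩ : ℂˣ) : ℂ)
      = cnt c ((ψ₁ ⟨y, hy⟩ : ℂˣ) : ℂ) ((ψ₂ ⟨y, hy⟩ : ℂˣ) : ℂ) := by
    intro η hη
    have h2 : ∀ ψ : H →* ℂˣ, (signToC.comp η = ψ) ↔ c = ((ψ ⟨y, hy⟩ : ℂˣ) : ℂ) := by
      intro ψ
      rw [zp_ext hy hH, hη]
    have h3 := count_two hb hHs hψ hφ η (by
      unfold cnt at h1
      simp only [h2]
      exact h1)
    simp only [h2] at h3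
    unfold cnt
    exact h3
  rcases hc with hc | hc
  · apply key 1
    rw [hc]
    simp
  · by_cases h2 : ∃ η : H →* ℤˣ, ((signToC.comp η ⟨y, hy⟩ : ℂˣ) : ℂ) = c
    · obtain ⟨η, hη⟩ := h2
      exact key η hη
    · have h3 : ∀ φ : H →* ℂˣ, ¬ (c = ((φ ⟨y, hy⟩ : ℂˣ) : ℂ)) := by
        intro φ hφ'
        apply h2
        obtain ⟨η, hη⟩ := exists_sign hy hH (φ := φ) (by rw [← hφ', hc])
        exact ⟨η, by rw [hη, ← hφ']⟩
      unfold cnt
      rw [if_neg (h3 _), if_neg (h3 _), if_neg (h3 _), if_neg (h3 _)]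

/-- the eigenvalues of an element -/
lemma exists_pairs (hθ : IsSolvHeilbronn θ) (h1 : θ 1 = 2) (hV : finrank ℚ V = 2)
    (hb : Small θ ρ) (x : G) :
    ∃ a₁ a₂ b₁ b₂ : ℂ, a₁ ≠ 0 ∧ a₂ ≠ 0 ∧ ‖b₁‖ = 1 ∧ ‖b₂‖ = 1 ∧
      (∀ k : ℤ, θ (x ^ k) = a₁ ^ k + a₂ ^ k) ∧ (∀ k : ℤ, chi ρ (x ^ k) = b₁ ^ k + b₂ ^ k) ∧
      ∀ (k : ℕ) (c : ℂ), (c = 1 ∨ c = -1) → cnt c (a₁ ^ k) (a₂ ^ k) ≤ 1 →
        cnt c (b₁ ^ k) (b₂ ^ k) = cnt c (a₁ ^ k) (a₂ ^ k) := by
  classical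
  let C := Subgroup.zpowers x
  have hC : Group.IsSolvable C := Group.isSolvable_of_comm (zpowers_comm x)
  obtain ⟨ψ₁, ψ₂, hψ⟩ := (hθ.heil C.subtype).comm_two (zpowers_comm x) (by simpa using h1)
  obtain ⟨φ₁, φ₂, hφ⟩ := ((chi_heil ρ).comp C.subtype).comm_two (zpowers_comm x) (by
    rw [map_one, chi_one, hV]; norm_num)
  let x' : C := ⟨x, Subgroup.mem_zpowers x⟩
  refine ⟨(ψ₁ x' : ℂˣ), (ψ₂ x' : ℂˣ), (φ₁ x' : ℂˣ), (φ₂ x' : ℂˣ), Units.ne_zero _, Units.ne_zero _,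
    norm_char _ _, norm_char _ _, ?_, ?_, ?_⟩
  · intro k
    have h2 := hψ (x' ^ k)
    rw [map_zpow ψ₁, map_zpow ψ₂, Units.val_zpow_eq_zpow_val, Units.val_zpow_eq_zpow_val] at h2
    rw [← h2]
    rfl
  · intro k
    have h2 := hφ (x' ^ k)
    rw [map_zpow φ₁, map_zpow φ₂, Units.val_zpow_eq_zpow_val, Units.val_zpow_eq_zpow_val] at h2
    rw [← h2]
    rfl
  · intro k c hc hle
    let H := Subgroup.zpowers (x ^ k)
    have hHC : H ≤ C := by
      rw [Subgroup.zpowers_le]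
      exact Subgroup.pow_mem _ (Subgroup.mem_zpowers x) k
    have hHs : Group.IsSolvable H := Group.isSolvable_of_comm (zpowers_comm (x ^ k))
    let i := Subgroup.inclusion hHC
    have hmem : x ^ k ∈ H := Subgroup.mem_zpowers _
    have hi : i ⟨x ^ k, hmem⟩ = x' ^ k := Subtype.ext rfl
    have hval : ∀ ψ : C →* ℂˣ, ((ψ.comp i ⟨x ^ k, hmem⟩ : ℂˣ) : ℂ) = ((ψ x' : ℂˣ) : ℂ) ^ k := by
      intro ψ
      rw [MonoidHom.comp_apply, hi, map_pow, Units.val_pow_eq_pow_val]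
    have h2 := count_vals hb hHs hmem (fun h hh => zp_pow hh) (ψ₁ := ψ₁.comp i)
      (ψ₂ := ψ₂.comp i) (φ₁ := φ₁.comp i) (φ₂ := φ₂.comp i) (fun h => hψ (i h))
      (fun h => hφ (i h)) hc (by rw [hval, hval]; exact hle)
    rw [hval, hval, hval, hval] at h2
    exact h2

/-- a pair of numbers whose power sums are real -/
lemma real_pair {a₁ a₂ : ℂ} (h1 : a₁ ≠ 0) (h2 : a₂ ≠ 0)
    (hr : ∀ k : ℤ, a₁ ^ (-k) + a₂ ^ (-k) = a₁ ^ k + a₂ ^ k) :
    a₁ * a₂ = 1 ∨ (a₁ = 1 ∧ a₂ = -1) ∨ (a₁ = -1 ∧ a₂ = 1) := by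
  have e1 := hr 1
  have e2 := hr 2
  simp only [zpow_neg, zpow_one] at e1 e2
  have e2' : (a₁ ^ 2)⁻¹ + (a₂ ^ 2)⁻¹ = a₁ ^ 2 + a₂ ^ 2 := by exact_mod_cast e2
  have f1 : (a₁ + a₂) * (1 - a₁ * a₂) = 0 := by
    field_simp at e1
    linear_combination e1
  rcases mul_eq_zero.mp f1 with f | f
  · have ha : a₂ = -a₁ := by linear_combination f
    subst ha
    have f2 : a₁ ^ 4 = 1 := by
      have : (a₁ ^ 2)⁻¹ = a₁ ^ 2 := by
        have h3 : (-a₁) ^ 2 = a₁ ^ 2 := by ring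
        rw [h3] at e2'
        linear_combination e2' / 2
      field_simp at this
      linear_combination -this
    have f3 : (a₁ - 1) * (a₁ + 1) * (a₁ ^ 2 + 1) = 0 := by linear_combination f2
    rcases mul_eq_zero.mp f3 with f4 | f4
    · rcases mul_eq_zero.mp f4 with f5 | f5
      · right; left
        have : a₁ = 1 := by linear_combination f5
        exact ⟨this, by rw [this]⟩
      · right; right
        have : a₁ = -1 := by linear_combination f5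
        exact ⟨this, by rw [this]; ring⟩
    · left
      linear_combination -f4
  · left
    linear_combination -f

/-- the possible pairs for an integral sum -/
lemma int_pair {b₁ b₂ : ℂ} (hb : b₁ * b₂ = 1) {m : ℤ} (hm : b₁ + b₂ = m) (h2 : ‖b₁ + b₂‖ ≤ 2) :
    (b₁ = 1 ∧ b₂ = 1) ∨ (b₁ = -1 ∧ b₂ = -1) ∨
      (b₁ + b₂ = -1 ∧ b₁ ^ 3 = 1 ∧ b₂ ^ 3 = 1 ∧ b₁ ^ 2 + b₁ + 1 = 0) ∨
      (b₁ + b₂ = 0 ∧ b₁ ^ 2 = -1 ∧ b₂ ^ 2 = -1) ∨
      (b₁ + b₂ = 1 ∧ b₁ ^ 3 = -1 ∧ b₂ ^ 3 = -1 ∧ b₁ ^ 2 - b₁ + 1 = 0) := by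
  rw [hm, Complex.norm_intCast] at h2
  have h3 : |m| ≤ 2 := by exact_mod_cast h2
  have h4 := abs_le.mp h3
  have hb2 : b₂ = m - b₁ := by linear_combination hm
  have q : b₁ ^ 2 - m * b₁ + 1 = 0 := by
    rw [hb2] at hb
    linear_combination -hb
  have hcases : m = -2 ∨ m = -1 ∨ m = 0 ∨ m = 1 ∨ m = 2 := by omega
  rcases hcases with rfl | rfl | rfl | rfl | rfl
  · right; left
    have : (b₁ + 1) ^ 2 = 0 := by push_cast at q; linear_combination q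
    have h5 : b₁ = -1 := by
      have := pow_eq_zero_iff (two_ne_zero) |>.mp this
      linear_combination this
    refine ⟨h5, ?_⟩
    rw [hb2, h5]; norm_num
  · right; right; left
    push_cast at q hb2 hm
    have q1 : b₁ ^ 2 + b₁ + 1 = 0 := by linear_combination q
    refine ⟨hm, ?_, ?_, q1⟩
    · linear_combination (b₁ - 1) * q1
    · rw [hb2]
      linear_combination (-(b₁ + 2)) * q1
  · right; right; right; left
    push_cast at q hb2 hm
    refine ⟨hm, ?_, ?_⟩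
    · linear_combination q
    · rw [hb2]
      linear_combination q
  · right; right; right; right
    push_cast at q hb2 hm
    have q1 : b₁ ^ 2 - b₁ + 1 = 0 := by linear_combination q
    refine ⟨hm, ?_, ?_, q1⟩
    · linear_combination (b₁ + 1) * q1
    · rw [hb2]
      linear_combination (-(b₁ - 2)) * q1
  · left
    have : (b₁ - 1) ^ 2 = 0 := by push_cast at q; linear_combination q
    have h5 : b₁ = 1 := by
      have := pow_eq_zero_iff (two_ne_zero) |>.mp this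
      linear_combination this
    refine ⟨h5, ?_⟩
    rw [hb2, h5]; norm_num

lemma cnt_eq {c a₁ a₂ : ℂ} (h1 : c = a₁) (h2 : c = a₂) : cnt c a₁ a₂ = 2 := by
  unfold cnt
  rw [if_pos h1, if_pos h2]

lemma cnt_ne {c a₁ a₂ : ℂ} (h1 : c ≠ a₁) (h2 : c ≠ a₂) : cnt c a₁ a₂ = 0 := by
  unfold cnt
  rw [if_neg h1, if_neg h2]

lemma cnt_l {c a₁ a₂ : ℂ} (h1 : c = a₁) (h2 : c ≠ a₂) : cnt c a₁ a₂ = 1 := by
  unfold cnt
  rw [if_pos h1, if_neg h2]

lemma cnt_r {c a₁ a₂ : ℂ} (h1 : c ≠ a₁) (h2 : c = a₂) : cnt c a₁ a₂ = 1 := by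
  unfold cnt
  rw [if_neg h1, if_pos h2]

lemma cnt_le (c a₁ a₂ : ℂ) : cnt c a₁ a₂ ≤ 2 := by
  unfold cnt
  split_ifs <;> omega

lemma eq_of_cnt {c a₁ a₂ : ℂ} (h : cnt c a₁ a₂ = 2) : c = a₁ ∧ c = a₂ := by
  unfold cnt at h
  constructor
  · by_contra h1
    rw [if_neg h1] at h
    split_ifs at h <;> omega
  · by_contra h1
    rw [if_neg h1] at h
    split_ifs at h <;> omega

/-- the pair analysis -/
lemma pair_main {a₁ a₂ b₁ b₂ : ℂ}
    (ha : a₁ * a₂ = 1 ∨ (a₁ = 1 ∧ a₂ = -1) ∨ (a₁ = -1 ∧ a₂ = 1))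
    (hb : b₁ * b₂ = 1 ∨ (b₁ = 1 ∧ b₂ = -1) ∨ (b₁ = -1 ∧ b₂ = 1))
    {m : ℤ} (hm : b₁ + b₂ = m) (h2 : ‖b₁ + b₂‖ ≤ 2)
    (hc : ∀ (k : ℕ) (c : ℂ), (c = 1 ∨ c = -1) → cnt c (a₁ ^ k) (a₂ ^ k) ≤ 1 →
        cnt c (b₁ ^ k) (b₂ ^ k) = cnt c (a₁ ^ k) (a₂ ^ k)) :
    a₁ + a₂ = b₁ + b₂ ∨ (a₁ = 1 ∧ a₂ = 1 ∧ b₁ * b₂ = 1 ∧ b₁ + b₂ = -1 ∧ b₁ ^ 2 + b₁ + 1 = 0) ∨
      (a₁ = -1 ∧ a₂ = -1 ∧ b₁ * b₂ = 1 ∧ b₁ + b₂ = 1 ∧ b₁ ^ 2 - b₁ + 1 = 0) := by
  have n1 : (1 : ℂ) ≠ -1 := by norm_num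
  have n2 : (-1 : ℂ) ≠ 1 := by norm_num
  -- contradictions from counts
  have K : ∀ (k : ℕ) (c : ℂ), (c = 1 ∨ c = -1) → c = b₁ ^ k → c = b₂ ^ k →
      c = a₁ ^ k ∧ c = a₂ ^ k := by
    intro k c hcc e1 e2
    apply eq_of_cnt
    by_contra h
    have h3 : cnt c (a₁ ^ k) (a₂ ^ k) ≤ 1 := by
      have := cnt_le c (a₁ ^ k) (a₂ ^ k)
      omega
    have h4 := hc k c hcc h3
    rw [cnt_eq e1 e2] at h4
    omega
  have hc1 := hc 1 1 (Or.inl rfl)
  have hc2 := hc 1 (-1) (Or.inr rfl)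
  simp only [pow_one] at hc1 hc2
  -- the pair `1, -1` for `a`
  have hA : ((a₁ = 1 ∧ a₂ = -1) ∨ (a₁ = -1 ∧ a₂ = 1)) → a₁ + a₂ = b₁ + b₂ := by
    intro h
    have h3 : cnt 1 a₁ a₂ = 1 := by
      rcases h with ⟨h3, h4⟩ | ⟨h3, h4⟩
      · exact cnt_l h3.symm (by rw [h4]; exact n1)
      · exact cnt_r (by rw [h3]; exact n1) h4.symm
    have h4 : cnt (-1) a₁ a₂ = 1 := by
      rcases h with ⟨h3, h4⟩ | ⟨h3, h4⟩
      · exact cnt_r (by rw [h3]; exact n2) h4.symm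
      · exact cnt_l h3.symm (by rw [h4]; exact n2)
    have h5 := hc1 h3.le
    have h6 := hc2 h4.le
    rw [h3] at h5
    rw [h4] at h6
    have h7 : a₁ + a₂ = 0 := by
      rcases h with ⟨h3, h4⟩ | ⟨h3, h4⟩ <;> rw [h3, h4] <;> norm_num
    rw [h7]
    by_cases e1 : (1 : ℂ) = b₁
    · have e2 : (-1 : ℂ) = b₂ := by
        by_contra e2
        have e3 : (-1 : ℂ) ≠ b₁ := by rw [← e1]; exact n2
        rw [cnt_ne e3 e2] at h6
        omega
      rw [← e1, ← e2]; norm_num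
    · have e2 : (1 : ℂ) = b₂ := by
        by_contra e2
        rw [cnt_ne e1 e2] at h5
        omega
      have e3 : (-1 : ℂ) = b₁ := by
        by_contra e3
        have e4 : (-1 : ℂ) ≠ b₂ := by rw [← e2]; exact n2
        rw [cnt_ne e3 e4] at h6
        omega
      rw [← e2, ← e3]; norm_num
  rcases ha with ha | ha
  swap
  · exact Or.inl (hA ha)
  by_cases t1 : a₁ = 1
  · have t2 : a₂ = 1 := by rw [t1, one_mul] at ha; exact ha
    have h3 : cnt (-1) a₁ a₂ = 0 := cnt_ne (by rw [t1]; exact n2) (by rw [t2]; exact n2)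
    have h4 := hc2 (by rw [h3]; norm_num)
    rw [h3] at h4
    have hno : b₁ ≠ -1 ∧ b₂ ≠ -1 := by
      constructor
      · intro e
        unfold cnt at h4
        rw [if_pos e.symm] at h4
        omega
      · intro e
        unfold cnt at h4
        rw [if_pos e.symm] at h4
        omega
    rcases hb with hb | ⟨_, hb⟩ | ⟨hb, _⟩
    · rcases int_pair hb hm h2 with h | h | h | h | h
      · left; rw [t1, t2, h.1, h.2]
      · exact absurd h.1 hno.1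
      · right; left
        exact ⟨t1, t2, hb, h.1, h.2.2.2⟩
      · exfalso
        have := K 2 (-1) (Or.inr rfl) h.2.1.symm h.2.2.symm
        rw [t1, one_pow] at this
        exact n2 this.1
      · exfalso
        have := K 3 (-1) (Or.inr rfl) h.2.1.symm h.2.2.1.symm
        rw [t1, one_pow] at this
        exact n2 this.1
    · exact absurd hb hno.2
    · exact absurd hb hno.1
  by_cases t2 : a₁ = -1
  · have t3 : a₂ = -1 := by rw [t2] at ha; linear_combination -ha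
    have h3 : cnt 1 a₁ a₂ = 0 := cnt_ne (by rw [t2]; exact n1) (by rw [t3]; exact n1)
    have h4 := hc1 (by rw [h3]; norm_num)
    rw [h3] at h4
    have hno : b₁ ≠ 1 ∧ b₂ ≠ 1 := by
      constructor
      · intro e
        unfold cnt at h4
        rw [if_pos e.symm] at h4
        omega
      · intro e
        unfold cnt at h4
        rw [if_pos e.symm] at h4
        omega
    rcases hb with hb | ⟨hb, _⟩ | ⟨_, hb⟩
    · rcases int_pair hb hm h2 with h | h | h | h | h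
      · exact absurd h.1 hno.1
      · left; rw [t2, t3, h.1, h.2]
      · exfalso
        have := K 3 1 (Or.inl rfl) h.2.1.symm h.2.2.1.symm
        rw [t2] at this
        norm_num at this
      · exfalso
        have := K 2 (-1) (Or.inr rfl) h.2.1.symm h.2.2.symm
        rw [t2] at this
        norm_num at this
      · right; right
        exact ⟨t2, t3, hb, h.1, h.2.2.2⟩
    · exact absurd hb hno.1
    · exact absurd hb hno.2
  · -- no eigenvalue `1` or `-1`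
    have t3 : a₂ ≠ 1 := by
      intro e; rw [e, mul_one] at ha; exact t1 ha
    have t4 : a₂ ≠ -1 := by
      intro e; rw [e] at ha; exact t2 (by linear_combination -ha)
    have h3 : cnt 1 a₁ a₂ = 0 := cnt_ne (Ne.symm t1) (Ne.symm t3)
    have h4 : cnt (-1) a₁ a₂ = 0 := cnt_ne (Ne.symm t2) (Ne.symm t4)
    have h5 := hc1 (by rw [h3]; norm_num)
    have h6 := hc2 (by rw [h4]; norm_num)
    rw [h3] at h5
    rw [h4] at h6
    have hno : b₁ ≠ 1 ∧ b₂ ≠ 1 ∧ b₁ ≠ -1 ∧ b₂ ≠ -1 := by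
      refine ⟨?_, ?_, ?_, ?_⟩ <;> intro e
      · unfold cnt at h5
        rw [if_pos e.symm] at h5
        omega
      · unfold cnt at h5
        rw [if_pos e.symm] at h5
        omega
      · unfold cnt at h6
        rw [if_pos e.symm] at h6
        omega
      · unfold cnt at h6
        rw [if_pos e.symm] at h6
        omega
    left
    have h7 : a₁ * a₂ = 1 := ha
    rcases hb with hb | ⟨hb, _⟩ | ⟨hb, _⟩
    · rcases int_pair hb hm h2 with h | h | h | h | h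
      · exact absurd h.1 hno.1
      · exact absurd h.1 hno.2.2.1
      · have := K 3 1 (Or.inl rfl) h.2.1.symm h.2.2.1.symm
        have q1 : (a₁ - 1) * (a₁ ^ 2 + a₁ + 1) = 0 := by linear_combination -this.1
        have q2 := (mul_eq_zero.mp q1).resolve_left (sub_ne_zero.mpr t1)
        have q3 : a₁ * (a₁ + a₂ + 1) = 0 := by linear_combination q2 + h7
        have q4 := (mul_eq_zero.mp q3).resolve_left (by
          intro h0; rw [h0, zero_mul] at h7; exact zero_ne_one h7)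
        rw [h.1]
        linear_combination q4
      · have := K 2 (-1) (Or.inr rfl) h.2.1.symm h.2.2.symm
        have q3 : a₁ * (a₁ + a₂) = 0 := by linear_combination -this.1 + h7
        have q4 := (mul_eq_zero.mp q3).resolve_left (by
          intro h0; rw [h0, zero_mul] at h7; exact zero_ne_one h7)
        rw [h.1]
        exact q4
      · have := K 3 (-1) (Or.inr rfl) h.2.1.symm h.2.2.1.symm
        have q1 : (a₁ + 1) * (a₁ ^ 2 - a₁ + 1) = 0 := by linear_combination -this.1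
        have q2 := (mul_eq_zero.mp q1).resolve_left (by
          intro h0; exact t2 (by linear_combination h0))
        have q3 : a₁ * (a₁ + a₂ - 1) = 0 := by linear_combination q2 + h7
        have q4 := (mul_eq_zero.mp q3).resolve_left (by
          intro h0; rw [h0, zero_mul] at h7; exact zero_ne_one h7)
        rw [h.1]
        linear_combination q4
    · exact absurd hb hno.1
    · exact absurd hb hno.2.2.1

end Pool.Agent.R362.BS
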