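import Mathlib
import Pool.Agent.R362.BS.Pair
import Pool.Agent.R362.Real

/-!
# Equality of the analytic and the arithmetic class function in degree two
-/

set_option autoImplicit false
set_option linter.unusedSectionVars false

namespace Pool.Agent.R362.BS

open Pool.Agent.H302R2 Pool.Agent.H541R3.ART Pool.Agent.R362.SH Pool.Agent.R362 Module

section lin

variable {V : Type} [AddCommGroup V] [Module ℚ V] [FiniteDimensional ℚ V]

/-- Cayley-Hamilton in dimension two -/
lemma ch_two (hV : finrank ℚ V = 2) (T : V →ₗ[ℚ] V) :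
    T * T = (LinearMap.trace ℚ V T) • T - (LinearMap.det T) • (1 : V →ₗ[ℚ] V) := by
  classical
  let b : Basis (Fin 2) ℚ V := finBasisOfFinrankEq ℚ V hV
  apply (LinearMap.toMatrix b b).injective
  rw [LinearMap.toMatrix_mul, map_sub, map_smul, map_smul, LinearMap.toMatrix_one,
    ← LinearMap.det_toMatrix b T, LinearMap.trace_eq_matrix_trace ℚ b T]
  generalize LinearMap.toMatrix b b T = M
  ext i j
  fin_cases i <;> fin_cases j <;>
    simp [Matrix.mul_apply, Fin.sum_univ_two, Matrix.trace_fin_two, Matrix.det_fin_two] <;> ring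

lemma trace_sq (hV : finrank ℚ V = 2) (T : V →ₗ[ℚ] V) :
    LinearMap.trace ℚ V (T * T) = (LinearMap.trace ℚ V T) ^ 2 - 2 * LinearMap.det T := by
  rw [ch_two hV T, map_sub, map_smul, map_smul, LinearMap.trace_one, hV]
  simp
  ring

end lin

section suppl

/-- a minimal supplement of the kernel of a homomorphism meets it in a solvable group -/
lemma exists_suppl {G Q : Type} [Group G] [Finite G] [Group Q] (f : G →* Q) :
    ∃ H : Subgroup G, (∀ g : G, ∃ h ∈ H, f h = f g) ∧ Group.IsSolvable (f.ker.subgroupOf H) := by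
  classical
  obtain ⟨H, hH⟩ := (Set.toFinite {H : Subgroup G | ∀ g : G, ∃ h ∈ H, f h = f g}).exists_minimal
    ⟨⊤, fun g => ⟨g, Subgroup.mem_top g, rfl⟩⟩
  refine ⟨H, hH.1, ?_⟩
  have hle : f.ker.subgroupOf H ≤ frattini H := by
    unfold frattini Order.radical
    refine le_iInf₂ fun M hM => ?_
    by_contra hK
    have hsup : M ⊔ f.ker.subgroupOf H = ⊤ :=
      hM.2 _ (lt_of_le_of_ne le_sup_left (fun h => hK (by
        have := le_sup_right (a := M) (b := f.ker.subgroupOf H)
        rwa [← h] at this)))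
    have hS : ∀ g : G, ∃ h ∈ M.map H.subtype, f h = f g := by
      intro g
      obtain ⟨h, hh, hfg⟩ := hH.1 g
      have h1 : (⟨h, hh⟩ : H) ∈ M ⊔ f.ker.subgroupOf H := by rw [hsup]; exact Subgroup.mem_top _
      have hnorm : (f.ker.subgroupOf H).Normal := inferInstance
      obtain ⟨m, hm, k, hk, hmk⟩ := Subgroup.mem_sup_of_normal_right.mp h1
      refine ⟨m, ⟨m, hm, rfl⟩, ?_⟩
      rw [← hfg]
      have h2 : ((m : G) * (k : G)) = h := congrArg Subtype.val hmk
      have h3 : f k = 1 := Subgroup.mem_subgroupOf.mp hk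
      rw [← h2, map_mul, h3, mul_one]
    have hMH : M.map H.subtype ≤ H := by
      rintro x ⟨m, -, rfl⟩
      exact m.2
    have h4 := hH.2 hS hMH
    apply hM.1
    rw [eq_top_iff]
    rintro ⟨x, hx⟩ -
    obtain ⟨m, hm, hmx⟩ := h4 hx
    have : m = ⟨x, hx⟩ := Subtype.ext hmx
    rwa [← this]
  have hn := frattini_nilpotent (G := H)
  have hs : Group.IsSolvable (frattini H) := inferInstance
  exact Group.isSolvable_of_isSolvable_injective (f := Subgroup.inclusion hle)
    (Subgroup.inclusion_injective hle)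

end suppl

variable {G : Type} [Group G] [Finite G] {V : Type} [AddCommGroup V] [Module ℚ V]
  [FiniteDimensional ℚ V] {ρ : Representation ℚ G V} {θ : G → ℂ}

/-- an exceptional element -/
def Exc (θ : G → ℂ) (ρ : Representation ℚ G V) (y : G) : Prop :=
  θ y = 2 ∧ θ (y ^ 2) = 2 ∧ LinearMap.det (ρ y) = 1 ∧ ρ.character y = -1

lemma chi_int (hV : finrank ℚ V = 2) (y : G) : ∃ m : ℤ, chi ρ y = m := by
  have h := (chi_heil ρ).isIntegral_two (by rw [chi_one, hV]; norm_num) y
  unfold chi at h ⊢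
  have h2 : IsIntegral ℤ (algebraMap ℚ ℂ (ρ.character y)) := h
  rw [isIntegral_algebraMap_iff (algebraMap ℚ ℂ).injective] at h2
  obtain ⟨m, hm⟩ := IsIntegrallyClosed.isIntegral_iff.mp h2
  refine ⟨m, ?_⟩
  rw [← hm]
  simp

lemma elt (hθ : IsSolvHeilbronn θ) (h1 : θ 1 = 2) (hr : IsRealF θ) (hV : finrank ℚ V = 2)
    (hb : Small θ ρ) (y : G) :
    (LinearMap.det (ρ y) = 1 ∨ (LinearMap.det (ρ y) = -1 ∧ ρ.character y = 0)) ∧
      (θ y = chi ρ y ∨ Exc θ ρ y ∨ Exc θ ρ (y ^ 2)) := by
  obtain ⟨a₁, a₂, b₁, b₂, ha₁, ha₂, hb₁, hb₂, hta, htb, hcnt⟩ := exists_pairs hθ h1 hV hb y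
  have hb₁0 : b₁ ≠ 0 := by intro h; rw [h, norm_zero] at hb₁; exact zero_ne_one hb₁
  have hb₂0 : b₂ ≠ 0 := by intro h; rw [h, norm_zero] at hb₂; exact zero_ne_one hb₂
  have hA := real_pair ha₁ ha₂ (fun k => by
    rw [← hta, ← hta, zpow_neg, hr])
  have hcinv : ∀ z : ℂ, ‖z‖ = 1 → z⁻¹ = (starRingEnd ℂ) z := by
    intro z hz
    rw [Complex.inv_def, Complex.normSq_eq_norm_sq, hz]
    simp
  have hB := real_pair hb₁0 hb₂0 (fun k => by
    have e1 : b₁ ^ (-k) = (starRingEnd ℂ) (b₁ ^ k) := by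
      rw [zpow_neg, hcinv _ (by rw [norm_zpow, hb₁, one_zpow])]
    have e2 : b₂ ^ (-k) = (starRingEnd ℂ) (b₂ ^ k) := by
      rw [zpow_neg, hcinv _ (by rw [norm_zpow, hb₂, one_zpow])]
    rw [e1, e2, ← map_add, ← htb]
    unfold chi
    simp)
  obtain ⟨m, hm⟩ := chi_int (ρ := ρ) hV y
  have hv1 : chi ρ y = b₁ + b₂ := by
    have := htb 1
    simpa using this
  have ht1 : θ y = a₁ + a₂ := by
    have := hta 1
    simpa using this
  have hv2 : chi ρ (y ^ 2) = b₁ ^ 2 + b₂ ^ 2 := by
    have := htb 2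
    exact_mod_cast this
  have ht2 : θ (y ^ 2) = a₁ ^ 2 + a₂ ^ 2 := by
    have := hta 2
    exact_mod_cast this
  have hv4 : chi ρ ((y ^ 2) ^ 2) = b₁ ^ 4 + b₂ ^ 4 := by
    rw [← pow_mul]
    have := htb 4
    exact_mod_cast this
  have ht4 : θ ((y ^ 2) ^ 2) = a₁ ^ 4 + a₂ ^ 4 := by
    rw [← pow_mul]
    have := hta 4
    exact_mod_cast this
  have hdet : ((LinearMap.det (ρ y) : ℚ) : ℂ) = b₁ * b₂ := by
    have h2 := trace_sq hV (ρ y)
    have h3 : ((LinearMap.trace ℚ V (ρ y * ρ y) : ℚ) : ℂ) = chi ρ (y ^ 2) := by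
      unfold chi Representation.character
      rw [pow_two, map_mul ρ y y]
    have h4 : ((LinearMap.trace ℚ V (ρ y) : ℚ) : ℂ) = chi ρ y := rfl
    have h5 := congrArg (fun q : ℚ => (q : ℂ)) h2
    simp only [Rat.cast_sub, Rat.cast_pow, Rat.cast_mul, Rat.cast_ofNat] at h5
    rw [h3, h4, hv1, hv2] at h5
    linear_combination (1 / 2) * h5
  have hdet2 : ((LinearMap.det (ρ (y ^ 2)) : ℚ) : ℂ) = (b₁ * b₂) ^ 2 := by
    rw [map_pow, map_pow, ← hdet]
    push_cast
    rfl
  have hnorm : ‖b₁ + b₂‖ ≤ 2 := by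
    refine (norm_add_le _ _).trans ?_
    rw [hb₁, hb₂]
    norm_num
  have hmain := pair_main hA hB (by rw [← hv1, hm]) hnorm hcnt
  refine ⟨?_, ?_⟩
  · rcases hB with h | h | h
    · left
      rw [h] at hdet
      exact_mod_cast hdet
    · right
      rw [h.1, h.2] at hdet hv1
      refine ⟨by rw [one_mul] at hdet; exact_mod_cast hdet, ?_⟩
      have : ((ρ.character y : ℚ) : ℂ) = 0 := by
        change chi ρ y = 0
        rw [hv1]; norm_num
      exact_mod_cast this
    · right
      rw [h.1, h.2] at hdet hv1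
      refine ⟨by rw [mul_one] at hdet; exact_mod_cast hdet, ?_⟩
      have : ((ρ.character y : ℚ) : ℂ) = 0 := by
        change chi ρ y = 0
        rw [hv1]; norm_num
      exact_mod_cast this
  · rcases hmain with h | ⟨e1, e2, e3, e4, e5⟩ | ⟨e1, e2, e3, e4, e5⟩
    · left
      rw [ht1, hv1, h]
    · right; left
      refine ⟨by rw [ht1, e1, e2]; norm_num, by rw [ht2, e1, e2]; norm_num, ?_, ?_⟩
      · rw [e3] at hdet
        exact_mod_cast hdet
      · have : ((ρ.character y : ℚ) : ℂ) = ((-1 : ℚ) : ℂ) := by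
          change chi ρ y = _
          rw [hv1, e4]; norm_num
        exact_mod_cast this
    · right; right
      refine ⟨by rw [ht2, e1, e2]; norm_num, by rw [ht4, e1, e2]; norm_num, ?_, ?_⟩
      · rw [e3, one_pow] at hdet2
        exact_mod_cast hdet2
      · have : ((ρ.character (y ^ 2) : ℚ) : ℂ) = ((-1 : ℚ) : ℂ) := by
          change chi ρ (y ^ 2) = _
          rw [hv2]
          have h6 : b₁ ^ 2 + b₂ ^ 2 = (b₁ + b₂) ^ 2 - 2 * (b₁ * b₂) := by ring
          rw [h6, e3, e4]
          norm_num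
        exact_mod_cast this

/-- a representation which contains elements of determinant `-1` is solvable modulo its kernel -/
lemma solvable_of_refl (hdet : ∀ y : G, LinearMap.det (ρ y) = 1 ∨
      (LinearMap.det (ρ y) = -1 ∧ ρ y * ρ y = 1)) {g₀ : G} (hg₀ : LinearMap.det (ρ g₀) = -1)
    (H : Subgroup G) (f : G →* (V →ₗ[ℚ] V)ˣ) (hf : ∀ g, ((f g : (V →ₗ[ℚ] V)ˣ) : V →ₗ[ℚ] V) = ρ g)
    (hs : Group.IsSolvable (f.ker.subgroupOf H)) :
    Group.IsSolvable H := by
  classical
  have hneg : ∀ y : G, LinearMap.det (ρ y) = -1 → ρ y * ρ y = 1 := by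
    intro y hy
    rcases hdet y with h | h
    · rw [h] at hy; norm_num at hy
    · exact h.2
  have hcomm : ∀ y z : G, LinearMap.det (ρ y) = 1 → LinearMap.det (ρ z) = 1 →
      ρ y * ρ z = ρ z * ρ y := by
    -- conjugation by `g₀` inverts the elements of determinant one
    have hinv : ∀ y : G, LinearMap.det (ρ y) = 1 → ρ g₀ * ρ y * ρ g₀ * ρ y = 1 := by
      intro y hy
      have h1 : LinearMap.det (ρ (g₀ * y)) = -1 := by
        rw [map_mul ρ, map_mul, hg₀, hy, mul_one]
      have h2 := hneg _ h1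
      rw [map_mul ρ] at h2
      rw [← h2]
      simp only [mul_assoc]
    intro y z hy hz
    have hg := hneg g₀ hg₀
    have hyz : LinearMap.det (ρ (y * z)) = 1 := by rw [map_mul ρ, map_mul, hy, hz, mul_one]
    have e1 := hinv y hy
    have e2 := hinv z hz
    have e3 := hinv (y * z) hyz
    rw [map_mul ρ] at e3
    -- inverses
    have i1 : ρ y⁻¹ * ρ y = 1 := by rw [← map_mul ρ, inv_mul_cancel, map_one]
    have i1' : ρ y * ρ y⁻¹ = 1 := by rw [← map_mul ρ, mul_inv_cancel, map_one]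
    have i2 : ρ z⁻¹ * ρ z = 1 := by rw [← map_mul ρ, inv_mul_cancel, map_one]
    have i2' : ρ z * ρ z⁻¹ = 1 := by rw [← map_mul ρ, mul_inv_cancel, map_one]
    have f1 : ρ g₀ * ρ y * ρ g₀ = ρ y⁻¹ := by
      calc ρ g₀ * ρ y * ρ g₀ = ρ g₀ * ρ y * ρ g₀ * (ρ y * ρ y⁻¹) := by rw [i1', mul_one]
        _ = (ρ g₀ * ρ y * ρ g₀ * ρ y) * ρ y⁻¹ := by simp only [mul_assoc]
        _ = ρ y⁻¹ := by rw [e1, one_mul]
    have f2 : ρ g₀ * ρ z * ρ g₀ = ρ z⁻¹ := by
      calc ρ g₀ * ρ z * ρ g₀ = ρ g₀ * ρ z * ρ g₀ * (ρ z * ρ z⁻¹) := by rw [i2', mul_one]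
        _ = (ρ g₀ * ρ z * ρ g₀ * ρ z) * ρ z⁻¹ := by simp only [mul_assoc]
        _ = ρ z⁻¹ := by rw [e2, one_mul]
    -- `(yz)` is inverted in two ways
    have f3 : ρ y⁻¹ * ρ z⁻¹ * (ρ y * ρ z) = 1 := by
      calc ρ y⁻¹ * ρ z⁻¹ * (ρ y * ρ z)
          = (ρ g₀ * ρ y * ρ g₀) * (ρ g₀ * ρ z * ρ g₀) * (ρ y * ρ z) := by rw [f1, f2]
        _ = ρ g₀ * ρ y * (ρ g₀ * ρ g₀) * ρ z * ρ g₀ * (ρ y * ρ z) := by simp only [mul_assoc]
        _ = ρ g₀ * (ρ y * ρ z) * ρ g₀ * (ρ y * ρ z) := by
            rw [hg, mul_one]; simp only [mul_assoc]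
        _ = 1 := e3
    calc ρ y * ρ z = (ρ z * ρ y) * (ρ y⁻¹ * ρ z⁻¹ * (ρ y * ρ z)) := by
          have : (ρ z * ρ y) * (ρ y⁻¹ * ρ z⁻¹ * (ρ y * ρ z))
              = ρ z * (ρ y * ρ y⁻¹) * ρ z⁻¹ * (ρ y * ρ z) := by simp only [mul_assoc]
          rw [this, i1', mul_one, i2', one_mul]
      _ = ρ z * ρ y := by rw [f3, mul_one]
  -- the determinant
  let δ : H →* ℚˣ := ((LinearMap.det.comp ρ).toHomUnits).comp H.subtype
  have hδ : ∀ h : H, ((δ h : ℚˣ) : ℚ) = LinearMap.det (ρ h) := fun h => rfl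
  have hker : Group.IsSolvable δ.ker := by
    let f₁ : δ.ker →* (V →ₗ[ℚ] V)ˣ := (f.comp H.subtype).comp δ.ker.subtype
    have hdetk : ∀ k : δ.ker, LinearMap.det (ρ ((k : H) : G)) = 1 := by
      intro k
      rw [← hδ, MonoidHom.mem_ker.mp k.2]
      rfl
    have h1 : Group.IsSolvable f₁.range := by
      apply Group.isSolvable_of_comm
      rintro ⟨_, a, rfl⟩ ⟨_, b, rfl⟩
      apply Subtype.ext
      apply Units.ext
      change ((f ((a : H) : G) : (V →ₗ[ℚ] V)ˣ) : V →ₗ[ℚ] V) * ((f ((b : H) : G) : (V →ₗ[ℚ] V)ˣ) : V →ₗ[ℚ] V)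
        = ((f ((b : H) : G) : (V →ₗ[ℚ] V)ˣ) : V →ₗ[ℚ] V) * ((f ((a : H) : G) : (V →ₗ[ℚ] V)ˣ) : V →ₗ[ℚ] V)
      rw [hf, hf]
      exact hcomm _ _ (hdetk a) (hdetk b)
    have h2 : Group.IsSolvable f₁.ker := by
      let j : f₁.ker →* f.ker.subgroupOf H :=
        { toFun := fun k => ⟨((k : δ.ker) : H), Subgroup.mem_subgroupOf.mpr k.2⟩
          map_one' := rfl
          map_mul' := fun _ _ => rfl }
      refine Group.isSolvable_of_isSolvable_injective (f := j) ?_
      intro a b hab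
      have : ((a : δ.ker) : H) = ((b : δ.ker) : H) :=
        congrArg (fun z : f.ker.subgroupOf H => (z : H)) hab
      exact Subtype.ext (Subtype.ext this)
    refine Group.isSolvable_of_ker_le_range f₁.ker.subtype f₁.rangeRestrict ?_
    rw [MonoidHom.ker_rangeRestrict, Subgroup.range_subtype]
  exact Group.isSolvable_of_ker_le_range δ.ker.subtype δ (by rw [Subgroup.range_subtype])

/-- no exceptional elements if there is an element of determinant `-1` -/
lemma no_exc (hθ : IsSolvHeilbronn θ) (h1 : θ 1 = 2) (hr : IsRealF θ) (hV : finrank ℚ V = 2)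
    (hb : Small θ ρ) {g₀ : G} (hg₀ : LinearMap.det (ρ g₀) = -1) (x : G) : ¬ Exc θ ρ x := by
  classical
  intro hx
  have hH : IsHeilbronn θ := hθ.isHeilbronn (r := 2) (by rw [h1]; norm_num) le_rfl
  have hsq : ∀ y : G, LinearMap.det (ρ y) = -1 → ρ y * ρ y = 1 := by
    intro y hy
    rcases (elt hθ h1 hr hV hb y).1 with h | h
    · rw [h] at hy; norm_num at hy
    · rw [ch_two hV (ρ y), hy]
      have : LinearMap.trace ℚ V (ρ y) = 0 := h.2
      rw [this]
      simp
  have hdet : ∀ y : G, LinearMap.det (ρ y) = 1 ∨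
      (LinearMap.det (ρ y) = -1 ∧ ρ y * ρ y = 1) := by
    intro y
    rcases (elt hθ h1 hr hV hb y).1 with h | h
    · exact Or.inl h
    · exact Or.inr ⟨h.1, hsq y h.1⟩
  let f : G →* (V →ₗ[ℚ] V)ˣ := MonoidHom.toHomUnits ρ
  have hf : ∀ g, ((f g : (V →ₗ[ℚ] V)ˣ) : V →ₗ[ℚ] V) = ρ g := fun g => rfl
  have hker : ∀ {g : G}, ρ g = 1 → g ∈ f.ker := by
    intro g hg
    rw [MonoidHom.mem_ker]
    exact Units.ext hg
  obtain ⟨H, hsup, hs⟩ := exists_suppl f
  have hHs : Group.IsSolvable H := solvable_of_refl hdet hg₀ H f hf hs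
  -- `θ` is constant on the cosets of the kernel
  have hA : ∀ a ∈ f.ker, θ a = 2 := by
    intro a ha
    have ha1 : ρ a = 1 := by
      rw [← hf, MonoidHom.mem_ker.mp ha]
      rfl
    have hc : ρ.character a = 2 := by
      unfold Representation.character
      rw [ha1, LinearMap.trace_one, hV]
      norm_num
    have ha2 : ρ.character (a ^ 2) = 2 := by
      unfold Representation.character
      rw [pow_two, map_mul ρ, ha1, mul_one, LinearMap.trace_one, hV]
      norm_num
    rcases (elt hθ h1 hr hV hb a).2 with h | h | h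
    · rw [h]
      unfold chi
      rw [hc]
      norm_num
    · exact h.1
    · have := h.2.2.2
      rw [ha2] at this
      norm_num at this
  have hconst : ∀ y z : G, ρ y = ρ z → θ y = θ z := by
    intro y z hyz
    have hk : z⁻¹ * y ∈ f.ker := by
      apply hker
      rw [map_mul ρ, hyz, ← map_mul ρ, inv_mul_cancel, map_one]
    have := hH.const_on_cosets h1 f.ker hA z hk
    rw [← this]
    congr 1
    group
  obtain ⟨x', hx'H, hx'⟩ := hsup x
  obtain ⟨g', hg'H, hg'⟩ := hsup g₀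
  have hρx : ρ x' = ρ x := by rw [← hf, ← hf, hx']
  have hρg : ρ g' = ρ g₀ := by rw [← hf, ← hf, hg']
  set c : V →ₗ[ℚ] V := ρ x with hc
  set t : V →ₗ[ℚ] V := ρ g₀ with ht
  have hc2 : c * c = - c - 1 := by
    rw [ch_two hV c]
    have e1 : LinearMap.trace ℚ V c = -1 := hx.2.2.2
    have e2 : LinearMap.det c = 1 := hx.2.2.1
    rw [e1, e2]
    simp
  have hc3 : c * c * c = 1 := by
    rw [hc2, sub_mul, neg_mul, hc2, one_mul]
    abel
  have ht2 : t * t = 1 := hsq g₀ hg₀
  have htc : t * c * t * c = 1 := by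
    have e1 : LinearMap.det (ρ (g₀ * x)) = -1 := by
      rw [map_mul ρ, map_mul, hg₀, hx.2.2.1, mul_one]
    have e2 := hsq _ e1
    rw [map_mul ρ] at e2
    rw [← e2]
    simp only [mul_assoc, hc, ht]
  have hct : c * t = t * (c * c) := by
    -- `t c t = c⁻¹ = c²`
    have e1 : t * c * t = c * c := by
      calc t * c * t = t * c * t * (c * (c * c)) := by
            rw [show c * (c * c) = 1 by rw [← mul_assoc]; exact hc3, mul_one]
        _ = (t * c * t * c) * (c * c) := by simp only [mul_assoc]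
        _ = c * c := by rw [htc, one_mul]
    calc c * t = (t * t) * (c * t) := by rw [ht2, one_mul]
      _ = t * (t * c * t) := by simp only [mul_assoc]
      _ = t * (c * c) := by rw [e1]
  -- the group generated by `x'` and `g'`
  let K : Subgroup G := Subgroup.closure {x', g'}
  have hKH : K ≤ H := by
    rw [Subgroup.closure_le]
    rintro y (rfl | hy)
    · exact hx'H
    · rw [Set.mem_singleton_iff] at hy
      rw [hy]; exact hg'H
  have hKs : Group.IsSolvable K := Group.isSolvable_of_isSolvable_injective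
    (f := Subgroup.inclusion hKH) (Subgroup.inclusion_injective hKH)
  -- the shape of the elements
  let P : (V →ₗ[ℚ] V) → Prop := fun M => M = 1 ∨ M = c ∨ M = c * c ∨ M = t ∨ M = t * c ∨
    M = t * (c * c)
  have c4 : c * c * (c * c) = c := by
    calc c * c * (c * c) = (c * c * c) * c := by simp only [mul_assoc]
      _ = c := by rw [hc3, one_mul]
  have c3' : c * (c * c) = 1 := by rw [← mul_assoc]; exact hc3
  have ct2 : c * c * t = t * c := by
    calc c * c * t = c * (c * t) := by rw [mul_assoc]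
      _ = c * (t * (c * c)) := by rw [hct]
      _ = (c * t) * (c * c) := by rw [← mul_assoc]
      _ = t * (c * c * (c * c)) := by rw [hct, mul_assoc]
      _ = t * c := by rw [c4]
  have hPc : ∀ M, P M → P (M * c) := by
    rintro M (rfl | rfl | rfl | rfl | rfl | rfl)
    · rw [one_mul]; exact Or.inr (Or.inl rfl)
    · exact Or.inr (Or.inr (Or.inl rfl))
    · rw [hc3]; exact Or.inl rfl
    · exact Or.inr (Or.inr (Or.inr (Or.inr (Or.inl rfl))))
    · rw [mul_assoc]; exact Or.inr (Or.inr (Or.inr (Or.inr (Or.inr rfl))))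
    · rw [mul_assoc, hc3, mul_one]; exact Or.inr (Or.inr (Or.inr (Or.inl rfl)))
  have hPt : ∀ M, P M → P (M * t) := by
    rintro M (rfl | rfl | rfl | rfl | rfl | rfl)
    · rw [one_mul]; exact Or.inr (Or.inr (Or.inr (Or.inl rfl)))
    · rw [hct]; exact Or.inr (Or.inr (Or.inr (Or.inr (Or.inr rfl))))
    · rw [ct2]; exact Or.inr (Or.inr (Or.inr (Or.inr (Or.inl rfl))))
    · rw [ht2]; exact Or.inl rfl
    · rw [mul_assoc, hct, ← mul_assoc, ht2, one_mul]
      exact Or.inr (Or.inr (Or.inl rfl))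
    · rw [mul_assoc, ct2, ← mul_assoc, ht2, one_mul]
      exact Or.inr (Or.inl rfl)
  have hPmul : ∀ M N, P M → P N → P (M * N) := by
    rintro M N hM (rfl | rfl | rfl | rfl | rfl | rfl)
    · rw [mul_one]; exact hM
    · exact hPc M hM
    · rw [← mul_assoc]; exact hPc _ (hPc M hM)
    · exact hPt M hM
    · rw [← mul_assoc]; exact hPc _ (hPt M hM)
    · rw [← mul_assoc, ← mul_assoc]; exact hPc _ (hPc _ (hPt M hM))
  have hPK : ∀ y ∈ K, P (ρ y) := by
    intro y hy
    induction hy using Subgroup.closure_induction with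
    | mem y hy =>
      rcases hy with rfl | hy
      · rw [hρx]; exact Or.inr (Or.inl rfl)
      · rw [Set.mem_singleton_iff] at hy
        rw [hy, hρg]; exact Or.inr (Or.inr (Or.inr (Or.inl rfl)))
    | one => rw [map_one]; exact Or.inl rfl
    | mul y z _ _ hy hz => rw [map_mul ρ]; exact hPmul _ _ hy hz
    | inv y _ hy =>
      have hpow : ∀ k : ℕ, P (ρ (y ^ k)) := by
        intro k
        induction k with
        | zero => rw [pow_zero, map_one]; exact Or.inl rfl
        | succ k ih => rw [pow_succ, map_mul ρ]; exact hPmul _ _ ih hy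
      have : y⁻¹ = y ^ (orderOf y - 1) := by
        have h0 : 0 < orderOf y := orderOf_pos y
        rw [inv_eq_iff_mul_eq_one, ← pow_succ', Nat.sub_add_cancel h0, pow_orderOf_eq_one]
      rw [this]
      exact hpow _
  -- the values of `θ`
  have hdc : LinearMap.det c = 1 := hx.2.2.1
  have hθK : ∀ y ∈ K, θ y = 1 + ((LinearMap.det (ρ y) : ℚ) : ℂ) := by
    intro y hy
    have hneg : LinearMap.det (ρ y) = -1 → θ y = 1 + ((LinearMap.det (ρ y) : ℚ) : ℂ) := by
      intro hd
      rcases elt hθ h1 hr hV hb y with ⟨h2, h3⟩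
      have h4 : ρ.character y = 0 := by
        rcases h2 with h2 | h2
        · rw [h2] at hd; norm_num at hd
        · exact h2.2
      have h5 : ρ (y ^ 2) = 1 := by rw [pow_two, map_mul ρ]; exact hsq y hd
      rcases h3 with h3 | h3 | h3
      · rw [h3, hd]
        unfold chi
        rw [h4]
        norm_num
      · have := h3.2.2.1
        rw [this] at hd; norm_num at hd
      · have := h3.2.2.2
        unfold Representation.character at this
        rw [h5, LinearMap.trace_one, hV] at this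
        norm_num at this
    rcases hPK y hy with h | h | h | h | h | h
    · rw [hconst y 1 (by rw [h, map_one]), h1, h]
      simp; norm_num
    · rw [hconst y x h, hx.1, h, hdc]
      norm_num
    · rw [hconst y (x ^ 2) (by rw [h, pow_two, map_mul ρ]), hx.2.1, h, map_mul, hdc]
      norm_num
    · apply hneg
      rw [h]; exact hg₀
    · apply hneg
      rw [h, map_mul, hdc, mul_one]; exact hg₀
    · apply hneg
      rw [h, map_mul, map_mul, hdc, mul_one, mul_one]; exact hg₀
  -- the multiplicity of the trivial character in `θ|_K` is one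
  let D : K →* ℂˣ := (((algebraMap ℚ ℂ).toMonoidHom.comp
    (LinearMap.det.comp ρ)).toHomUnits).comp K.subtype
  have hD : ∀ y : K, ((D y : ℂˣ) : ℂ) = ((LinearMap.det (ρ y) : ℚ) : ℂ) := fun y => rfl
  have hDne : (1 : K →* ℂˣ) ≠ D := by
    intro h
    have h2 := DFunLike.congr_fun h (⟨g', Subgroup.subset_closure (by simp)⟩ : K)
    have h3 := congrArg (fun u : ℂˣ => (u : ℂ)) h2
    simp only [hD] at h3
    rw [hρg, hg₀] at h3
    norm_num at h3
  have hsum := two_lin (1 : K →* ℂˣ) 1 D (fun y : K => θ y) (by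
    intro y
    rw [hθK y y.2, hD]
    simp)
  rw [if_pos rfl, if_neg hDne] at hsum
  have hrank := hb K hKs 1 1 le_rfl (by
    rw [← hsum]
    refine finsum_congr fun y => ?_
    simp)
  -- but there are no fixed vectors
  have hbot : eig ρ K 1 = ⊥ := by
    rw [Submodule.eq_bot_iff]
    intro v hv
    have h2 := hv ⟨x', Subgroup.subset_closure (by simp)⟩
    simp only [MonoidHom.one_apply, Units.val_one, Int.cast_one, one_smul] at h2
    rw [hρx] at h2
    have h3 : (c * c) v = v := by rw [Module.End.mul_apply, h2, h2]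
    rw [hc2] at h3
    have h4 : - v - v = v := by
      have : (-c - 1 : V →ₗ[ℚ] V) v = - (c v) - v := rfl
      rw [this, h2] at h3
      exact h3
    have h5 : (3 : ℚ) • v = 0 := by
      have : (3 : ℚ) • v = v - (- v - v) := by module
      rw [this, h4, sub_self]
    exact (smul_eq_zero.mp h5).resolve_left (by norm_num)
  rw [hbot, finrank_bot] at hrank
  exact zero_ne_one hrank

/-- degree two -/
theorem eq_of_two (hθ : IsSolvHeilbronn θ) (h1 : θ 1 = 2) (hr : IsRealF θ)
    (hV : finrank ℚ V = 2) (hb : Small θ ρ)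
    (h : (∃ g : G, LinearMap.det (ρ g) = -1) ∨ (∀ g : G, ρ (g ^ 3) = 1 → ρ g = 1)) (y : G) :
    θ y = chi ρ y := by
  have hno : ∀ x, ¬ Exc θ ρ x := by
    rcases h with ⟨g₀, hg₀⟩ | h
    · exact no_exc hθ h1 hr hV hb hg₀
    · intro x hx
      have hc2 : ρ x * ρ x = - ρ x - 1 := by
        rw [ch_two hV (ρ x)]
        have e1 : LinearMap.trace ℚ V (ρ x) = -1 := hx.2.2.2
        have e2 : LinearMap.det (ρ x) = 1 := hx.2.2.1
        rw [e1, e2]
        simp
      have hc3 : ρ (x ^ 3) = 1 := by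
        rw [pow_succ, pow_two, map_mul ρ, map_mul ρ, hc2, sub_mul, neg_mul, hc2, one_mul]
        abel
      have h2 := h x hc3
      have h3 := hx.2.2.2
      unfold Representation.character at h3
      rw [h2, LinearMap.trace_one, hV] at h3
      norm_num at h3
  rcases (elt hθ h1 hr hV hb y).2 with h2 | h2 | h2
  · exact h2
  · exact absurd h2 (hno _)
  · exact absurd h2 (hno _)

end Pool.Agent.R362.BS
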