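import Mathlib
import Pool.Agent.R362.BS.Main

/-!
# Degree at most one, and involutions in degree two
-/

set_option autoImplicit false
set_option linter.unusedSectionVars false

namespace Pool.Agent.R362.BS

open Pool.Agent.H302R2 Pool.Agent.H541R3.ART Pool.Agent.R362.SH Pool.Agent.R362 Module

variable {G : Type} [Group G] [Finite G] {V : Type} [AddCommGroup V] [Module ℚ V]
  [FiniteDimensional ℚ V] {ρ : Representation ℚ G V} {θ : G → ℂ}

lemma eig_bot : eig ρ ⊥ 1 = ⊤ := by
  rw [eq_top_iff]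
  intro v _ h
  have : h = 1 := Subsingleton.elim _ _
  rw [this]
  simp

lemma sum_bot (f : G → ℂ) (η : (⊥ : Subgroup G) →* ℂˣ) :
    ∑ᶠ h : (⊥ : Subgroup G), f h * (((η h)⁻¹ : ℂˣ) : ℂ) = f 1 * Nat.card (⊥ : Subgroup G) := by
  have : Fintype (⊥ : Subgroup G) := Fintype.ofFinite _
  rw [finsum_eq_sum_of_fintype, Fintype.sum_eq_single (1 : (⊥ : Subgroup G))]
  · simp
  · intro x hx
    exact absurd (Subsingleton.elim x 1) hx

/-- the dimension of the representation -/
lemma finrank_of_one (hb : Small θ ρ) {n : ℕ} (hn : n ≤ 1) (h1 : θ 1 = n) : finrank ℚ V = n := by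
  have h := hb ⊥ inferInstance 1 n hn (by rw [sum_bot, h1])
  rwa [eig_bot, finrank_top] at h

lemma eq_of_zero (hθ : IsSolvHeilbronn θ) (h1 : θ 1 = 0) (hb : Small θ ρ) (y : G) :
    θ y = chi ρ y := by
  have hV := finrank_of_one hb (n := 0) (by norm_num) (by rw [h1]; simp)
  have h2 := hθ.norm_le y
  have h3 := (chi_heil ρ).norm_le y
  rw [h1, Complex.zero_re] at h2
  rw [chi_one, hV, Nat.cast_zero, Complex.zero_re] at h3
  rw [norm_le_zero_iff.mp h2, norm_le_zero_iff.mp h3]

lemma eq_of_one (hθ : IsSolvHeilbronn θ) (h1 : θ 1 = 1) (hb : Small θ ρ) (y : G) :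
    θ y = chi ρ y := by
  classical
  have hV := finrank_of_one hb (n := 1) le_rfl (by rw [h1]; simp)
  -- the comparison on cyclic subgroups
  have key : ∀ x : G, ∃ a b : ℂ, ‖b‖ = 1 ∧ (∀ k : ℕ, θ (x ^ k) = a ^ k) ∧
      (∀ k : ℕ, chi ρ (x ^ k) = b ^ k) ∧ (a = 1 ↔ b = 1) := by
    intro x
    let C := Subgroup.zpowers x
    have hC : Group.IsSolvable C := Group.isSolvable_of_comm (zpowers_comm x)
    obtain ⟨ψ, hψ⟩ := (hθ.heil C.subtype).comm_one (zpowers_comm x) (by simpa using h1)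
    obtain ⟨φ, hφ⟩ := ((chi_heil ρ).comp C.subtype).comm_one (zpowers_comm x) (by
      rw [map_one, chi_one, hV]; norm_num)
    let x' : C := ⟨x, Subgroup.mem_zpowers x⟩
    refine ⟨(ψ x' : ℂˣ), (φ x' : ℂˣ), norm_char _ _, ?_, ?_, ?_⟩
    · intro k
      have h2 := hψ (x' ^ k)
      rw [map_pow ψ, Units.val_pow_eq_pow_val] at h2
      rw [← h2]
      rfl
    · intro k
      have h2 := hφ (x' ^ k)
      rw [map_pow φ, Units.val_pow_eq_pow_val] at h2
      rw [← h2]
      rfl
    · have e1 := lin_pair (1 : C →* ℂˣ) ψ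
      have e2 := lin_pair (1 : C →* ℂˣ) φ
      have e3 := hb C hC 1 (if (1 : C →* ℂˣ) = ψ then 1 else 0) (by split_ifs <;> omega) (by
        rw [← e1]
        refine finsum_congr fun h => ?_
        rw [← hψ]
        simp)
      have e4 := eig_finrank ρ C 1
      have e5 : ∑ᶠ h : C, chi ρ h * (((signToC.comp (1 : C →* ℤˣ) h)⁻¹ : ℂˣ) : ℂ)
          = ((if (1 : C →* ℂˣ) = φ then 1 else 0 : ℕ) : ℂ) * (Nat.card C : ℂ) := by
        rw [← e2]
        refine finsum_congr fun h => ?_
        rw [← hφ]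
        simp
      rw [e4, e3] at e5
      have hc : (Nat.card C : ℂ) ≠ 0 := by exact_mod_cast Nat.card_pos.ne'
      have e6 := Nat.cast_injective (R := ℂ) (mul_right_cancel₀ hc e5)
      have e7 : ∀ χ : C →* ℂˣ, ((1 : C →* ℂˣ) = χ) ↔ ((χ x' : ℂˣ) : ℂ) = 1 := by
        intro χ
        rw [zp_ext (x := x) (H := C) (Subgroup.mem_zpowers x) (fun h hh => zp_pow hh)]
        simp only [MonoidHom.one_apply, Units.val_one]
        exact eq_comm
      simp only [e7] at e6
      by_cases ha : ((ψ x' : ℂˣ) : ℂ) = 1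
      · rw [if_pos ha] at e6
        by_cases hb' : ((φ x' : ℂˣ) : ℂ) = 1
        · exact ⟨fun _ => hb', fun _ => ha⟩
        · rw [if_neg hb'] at e6; omega
      · rw [if_neg ha] at e6
        by_cases hb' : ((φ x' : ℂˣ) : ℂ) = 1
        · rw [if_pos hb'] at e6; omega
        · exact ⟨fun h => absurd h ha, fun h => absurd h hb'⟩
  obtain ⟨a, b, hbn, ha, hbk, hab⟩ := key y
  obtain ⟨a', b', hbn', ha', hbk', hab'⟩ := key (y ^ 2)
  have ha1 : θ y = a := by simpa using ha 1
  have hb1 : chi ρ y = b := by simpa using hbk 1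
  have ha2 : a' = a ^ 2 := by
    have := ha' 1
    rw [pow_one, pow_one] at this
    rw [← this, ha]
  have hb2 : b' = b ^ 2 := by
    have := hbk' 1
    rw [pow_one, pow_one] at this
    rw [← this, hbk]
  -- `b` is rational
  have hbsq : b ^ 2 = 1 := by
    have h2 : ((ρ.character y : ℚ) : ℂ) = b := hb1
    rw [← h2] at hbn ⊢
    have h3 : |((ρ.character y : ℚ) : ℝ)| = 1 := by
      rw [← hbn]
      have : (((ρ.character y : ℚ)) : ℂ) = (((ρ.character y : ℚ) : ℝ) : ℂ) := by push_cast; rfl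
      rw [this, Complex.norm_real, Real.norm_eq_abs]
    have h4 : ((ρ.character y : ℚ) : ℝ) ^ 2 = 1 := by rw [← sq_abs, h3, one_pow]
    have h5 : (ρ.character y) ^ 2 = 1 := by exact_mod_cast h4
    exact_mod_cast h5
  rw [ha1, hb1]
  have h3 : a ^ 2 = 1 := by
    rw [← ha2]
    apply hab'.mpr
    rw [hb2, hbsq]
  have h4 : (b - 1) * (b + 1) = 0 := by linear_combination hbsq
  have h5 : (a - 1) * (a + 1) = 0 := by linear_combination h3
  rcases mul_eq_zero.mp h4 with h6 | h6
  · have hb1' : b = 1 := by linear_combination h6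
    rw [hab.mpr hb1', hb1']
  · have hb1' : b = -1 := by linear_combination h6
    rcases mul_eq_zero.mp h5 with h7 | h7
    · have : a = 1 := by linear_combination h7
      have := hab.mp this
      rw [hb1'] at this
      norm_num at this
    · linear_combination h7 - h6

/-- an involution over whose fixed field the order is one -/
lemma invol (hθ : IsSolvHeilbronn θ) (h1 : θ 1 = 2) (hb : Small θ ρ) {g : G} (hg : g ^ 2 = 1)
    (h : ∑ᶠ h : Subgroup.zpowers g, θ h = (Nat.card (Subgroup.zpowers g) : ℂ)) :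
    finrank ℚ V = 2 ∧ LinearMap.det (ρ g) = -1 := by
  classical
  let C := Subgroup.zpowers g
  have : Fintype C := Fintype.ofFinite C
  have hC : Group.IsSolvable C := Group.isSolvable_of_comm (zpowers_comm g)
  obtain ⟨ψ₁, ψ₂, hψ⟩ := (hθ.heil C.subtype).comm_two (zpowers_comm g) (by simpa using h1)
  let g' : C := ⟨g, Subgroup.mem_zpowers g⟩
  have hcne : (Nat.card C : ℂ) ≠ 0 := by exact_mod_cast Nat.card_pos.ne'
  have e1 := two_lin (1 : C →* ℂˣ) ψ₁ ψ₂ (fun h : C => θ h) hψ
  have e2 : ∑ᶠ h : C, θ h * ((((1 : C →* ℂˣ) h)⁻¹ : ℂˣ) : ℂ) = (1 : ℕ) * (Nat.card C : ℂ) := by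
    rw [Nat.cast_one, one_mul, ← h]
    refine finsum_congr fun h => ?_
    simp
  rw [e2] at e1
  have e3 := Nat.cast_injective (R := ℂ) (mul_right_cancel₀ hcne e1)
  have hpm : ∀ χ : C →* ℂˣ, ((χ g' : ℂˣ) : ℂ) = 1 ∨ ((χ g' : ℂˣ) : ℂ) = -1 := by
    intro χ
    have h2 : ((χ g' : ℂˣ) : ℂ) ^ 2 = 1 := by
      rw [← Units.val_pow_eq_pow_val, ← map_pow]
      have : g' ^ 2 = 1 := Subtype.ext hg
      rw [this, map_one, Units.val_one]
    have h3 : (((χ g' : ℂˣ) : ℂ) - 1) * (((χ g' : ℂˣ) : ℂ) + 1) = 0 := by linear_combination h2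
    rcases mul_eq_zero.mp h3 with h4 | h4
    · left; linear_combination h4
    · right; linear_combination h4
  have e7 : ∀ χ : C →* ℂˣ, ((1 : C →* ℂˣ) = χ) ↔ ((χ g' : ℂˣ) : ℂ) = 1 := by
    intro χ
    rw [zp_ext (x := g) (H := C) (Subgroup.mem_zpowers g) (fun h hh => zp_pow hh)]
    simp only [MonoidHom.one_apply, Units.val_one]
    exact eq_comm
  -- the second character
  obtain ⟨κ, hκ1, hκ⟩ : ∃ κ : C →* ℂˣ, ((κ g' : ℂˣ) : ℂ) = -1 ∧
      ∀ x : C, θ x = 1 + ((κ x : ℂˣ) : ℂ) := by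
    by_cases a1 : (1 : C →* ℂˣ) = ψ₁
    · rw [if_pos a1] at e3
      have a2 : ¬ (1 : C →* ℂˣ) = ψ₂ := by
        intro a2
        rw [if_pos a2] at e3
        omega
      refine ⟨ψ₂, ?_, ?_⟩
      · rcases hpm ψ₂ with h2 | h2
        · exact absurd ((e7 _).mpr h2) a2
        · exact h2
      · intro x
        have h3 := hψ x
        rw [← a1] at h3
        simpa using h3
    · rw [if_neg a1] at e3
      have a2 : (1 : C →* ℂˣ) = ψ₂ := by
        by_contra a2
        rw [if_neg a2] at e3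
        omega
      refine ⟨ψ₁, ?_, ?_⟩
      · rcases hpm ψ₁ with h2 | h2
        · exact absurd ((e7 _).mpr h2) a1
        · exact h2
      · intro x
        have h3 := hψ x
        rw [← a2] at h3
        rw [add_comm]
        simpa using h3
  have hκne : κ ≠ 1 := by
    intro h2
    rw [h2] at hκ1
    norm_num at hκ1
  obtain ⟨η, hη⟩ := exists_sign (x := g) (H := C) (Subgroup.mem_zpowers g)
    (fun h hh => zp_pow hh) hκ1
  have f1 := hb C hC 1 1 le_rfl (by
    rw [← e2]
    refine finsum_congr fun h => ?_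
    simp)
  have f2 := hb C hC η 1 le_rfl (by
    have h3 := two_lin κ 1 κ (fun h : C => θ h) (by
      intro x
      rw [hκ x]
      simp)
    rw [if_neg hκne, if_pos rfl] at h3
    rw [hη]
    simpa using h3)
  have k1 := eig_finrank ρ C 1
  have k2 := eig_finrank ρ C η
  rw [f1] at k1
  rw [f2, hη] at k2
  -- the two elements
  have hg1 : g' ≠ 1 := by
    intro h2
    rw [h2, map_one, Units.val_one] at hκ1
    norm_num at hκ1
  have huniv : (Finset.univ : Finset C) = {1, g'} := by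
    ext ⟨y, hy⟩
    simp only [Finset.mem_univ, Finset.mem_insert, Finset.mem_singleton, true_iff]
    obtain ⟨k, rfl⟩ := zp_pow hy
    rcases Nat.even_or_odd' k with ⟨j, rfl | rfl⟩
    · left
      apply Subtype.ext
      change g ^ (2 * j) = 1
      rw [pow_mul, hg, one_pow]
    · right
      apply Subtype.ext
      change g ^ (2 * j + 1) = g
      rw [pow_succ, pow_mul, hg, one_pow, one_mul]
  have hcard : (Nat.card C : ℂ) = 2 := by
    rw [Nat.card_eq_fintype_card, ← Finset.card_univ, huniv, Finset.card_pair (Ne.symm hg1)]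
    norm_num
  rw [finsum_eq_sum_of_fintype, huniv, Finset.sum_pair (Ne.symm hg1), hcard] at k1 k2
  have l1 : chi ρ 1 + chi ρ g = 2 := by
    simpa using k1
  have l2 : chi ρ 1 - chi ρ g = 2 := by
    have h3 : (((κ g')⁻¹ : ℂˣ) : ℂ) = -1 := by
      rw [Units.val_inv_eq_inv_val, hκ1]; norm_num
    have h4 : ((g' : C) : G) = g := rfl
    rw [h3, h4] at k2
    simp only [map_one, inv_one, Units.val_one, mul_one, Subgroup.coe_one] at k2
    push_cast at k2
    linear_combination k2
  have m1 : chi ρ 1 = 2 := by linear_combination (1 / 2) * l1 + (1 / 2) * l2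
  have m2 : chi ρ g = 0 := by linear_combination (1 / 2) * l1 - (1 / 2) * l2
  have hV : finrank ℚ V = 2 := by
    rw [chi_one] at m1
    exact_mod_cast m1
  refine ⟨hV, ?_⟩
  have h5 := trace_sq hV (ρ g)
  have h6 : ρ g * ρ g = 1 := by rw [← map_mul ρ, ← pow_two, hg, map_one]
  rw [h6, LinearMap.trace_one, hV] at h5
  have h7 : LinearMap.trace ℚ V (ρ g) = 0 := by
    have : ((LinearMap.trace ℚ V (ρ g) : ℚ) : ℂ) = 0 := m2
    exact_mod_cast this
  rw [h7] at h5
  push_cast at h5
  linarith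

end Pool.Agent.R362.BS
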