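import Mathlib
import Pool.Agent.R362.BS.Low
import Pool.Agent.H302R2.DedekindTwo

/-!
# Elementary abelian 2-subgroups and groups generated by elements of prime order
-/

set_option autoImplicit false
set_option linter.unusedSectionVars false

namespace Pool.Agent.R362.BS

open Pool.Agent.H302R2 Pool.Agent.H541R3.ART Pool.Agent.R362.SH Pool.Agent.R362 Module

variable {G : Type} [Group G] [Finite G] {V : Type} [AddCommGroup V] [Module ℚ V]
  [FiniteDimensional ℚ V] {ρ : Representation ℚ G V} {θ : G → ℂ}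

lemma comm_of_sq {T : Subgroup G} (hT : ∀ t ∈ T, t ^ 2 = 1) (a b : T) : a * b = b * a := by
  have h : ∀ x : T, x * x = 1 := fun x => Subtype.ext (by
    have := hT x x.2
    rwa [pow_two] at this)
  have h1 := h (a * b)
  calc a * b = (a * b)⁻¹ := (inv_eq_of_mul_eq_one_left h1).symm
    _ = b⁻¹ * a⁻¹ := mul_inv_rev _ _
    _ = b * a := by
      rw [inv_eq_of_mul_eq_one_left (h b), inv_eq_of_mul_eq_one_left (h a)]

/-- the characters of an elementary abelian `2`-group are sign characters -/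
lemma exists_sign_el {T : Subgroup G} (hT : ∀ t ∈ T, t ^ 2 = 1) (φ : T →* ℂˣ) :
    ∃ η : T →* ℤˣ, signToC.comp η = φ := by
  classical
  have hφ : ∀ y : T, φ y = 1 ∨ φ y = -1 := by
    intro y
    have h1 : (φ y : ℂˣ) ^ 2 = 1 := by
      rw [← map_pow]
      have : y ^ 2 = 1 := Subtype.ext (hT y y.2)
      rw [this, map_one]
    have h2 : ((φ y : ℂˣ) : ℂ) ^ 2 = 1 := by
      rw [← Units.val_pow_eq_pow_val, h1, Units.val_one]
    have h3 : (((φ y : ℂˣ) : ℂ) - 1) * (((φ y : ℂˣ) : ℂ) + 1) = 0 := by linear_combination h2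
    rcases mul_eq_zero.mp h3 with h4 | h4
    · left; apply Units.ext; rw [Units.val_one]; linear_combination h4
    · right; apply Units.ext; rw [Units.val_neg, Units.val_one]; linear_combination h4
  have hne : (1 : ℂˣ) ≠ -1 := by
    intro h1
    have := congrArg (fun u : ℂˣ => (u : ℂ)) h1
    norm_num at this
  let f : T → ℤˣ := fun y => if φ y = 1 then 1 else -1
  have hf : ∀ y, signToC (f y) = φ y := by
    intro y
    rcases hφ y with h1 | h1
    · simp [f, h1]
    · have h2 : ¬ φ y = 1 := by rw [h1]; exact hne.symm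
      simp only [f, h1]
      rw [if_neg hne.symm]
      apply Units.ext
      simp [signToC]
  have hinj : Function.Injective signToC := by
    intro a b hab
    rcases Int.units_eq_one_or a with ha | ha <;> rcases Int.units_eq_one_or b with hb | hb
    · rw [ha, hb]
    · exfalso
      rw [ha, hb, map_one] at hab
      exact signToC_neg_one hab.symm
    · exfalso
      rw [ha, hb, map_one] at hab
      exact signToC_neg_one hab
    · rw [ha, hb]
  refine ⟨{ toFun := f, map_one' := hinj (by rw [hf, map_one, map_one]),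
            map_mul' := fun a b => hinj (by rw [hf, map_mul, map_mul, hf, hf]) }, ?_⟩
  ext y
  rw [MonoidHom.comp_apply]
  exact congrArg (fun u : ℂˣ => (u : ℂ)) (hf y)

/-- if all multiplicities on an elementary abelian `2`-subgroup are at most one, the functions
agree there -/
lemma eq_on_el (hθ : IsSolvHeilbronn θ) (hb : Small θ ρ) {T : Subgroup G}
    (hT : ∀ t ∈ T, t ^ 2 = 1)
    (h1 : ∀ (η : T →* ℤˣ) (n : ℕ),
      ∑ᶠ t : T, θ t * (((signToC.comp η t)⁻¹ : ℂˣ) : ℂ) = (n : ℂ) * (Nat.card T : ℂ) → n ≤ 1) :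
    (∀ t ∈ T, θ t = chi ρ t) ∧ ∃ s : Multiset (T →* ℂˣ), s.Nodup ∧
      (∀ t : T, θ t = (s.map (fun ψ => ((ψ t : ℂˣ) : ℂ))).sum) := by
  classical
  have hTs : Group.IsSolvable T := Group.isSolvable_of_comm (comm_of_sq hT)
  obtain ⟨s, hs⟩ := (hθ.heil T.subtype).comm_multiset (comm_of_sq hT)
  obtain ⟨s', hs'⟩ := ((chi_heil ρ).comp T.subtype).comm_multiset (comm_of_sq hT)
  have hc : (Nat.card T : ℂ) ≠ 0 := by exact_mod_cast Nat.card_pos.ne'
  have hcount : ∀ ψ : T →* ℂˣ, Multiset.count ψ s ≤ 1 ∧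
      Multiset.count ψ s' = Multiset.count ψ s := by
    intro ψ
    obtain ⟨η, hη⟩ := exists_sign_el hT ψ
    have e1 := count_mult s ψ
    have e2 := count_mult s' ψ
    have e3 : ∑ᶠ t : T, θ t * (((signToC.comp η t)⁻¹ : ℂˣ) : ℂ)
        = (Multiset.count ψ s : ℂ) * (Nat.card T : ℂ) := by
      rw [← e1]
      refine finsum_congr fun t => ?_
      rw [hη, ← hs t]
      rfl
    have e4 : ∑ᶠ t : T, chi ρ t * (((signToC.comp η t)⁻¹ : ℂˣ) : ℂ)
        = (Multiset.count ψ s' : ℂ) * (Nat.card T : ℂ) := by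
      rw [← e2]
      refine finsum_congr fun t => ?_
      rw [hη, ← hs' t]
      rfl
    have e5 := h1 η _ e3
    have e6 := hb T hTs η _ e5 e3
    refine ⟨e5, ?_⟩
    rw [eig_finrank, e6] at e4
    exact (Nat.cast_injective (R := ℂ) (mul_right_cancel₀ hc e4)).symm
  have hss : s' = s := Multiset.ext.mpr fun ψ => (hcount ψ).2
  refine ⟨?_, s, Multiset.nodup_iff_count_le_one.mpr fun ψ => (hcount ψ).1, hs⟩
  intro t ht
  have f1 := hs ⟨t, ht⟩
  have f2 := hs' ⟨t, ht⟩
  rw [hss, ← f1] at f2
  exact f2.symm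

/-- elements of prime order `p` act trivially in dimension less than `p - 1` -/
lemma trivial_of_prime {p : ℕ} (hp : p.Prime) (hV : finrank ℚ V + 1 < p) (x : G)
    (hx : x ^ p = 1) : ρ x = 1 := by
  classical
  set M : V →ₗ[ℚ] V := ρ x with hM
  have hpow : M ^ p = 1 := by
    rw [hM, ← map_pow, hx, map_one]
  have hint : IsIntegral ℚ M := Algebra.IsIntegral.isIntegral M
  have h1 : minpoly ℚ M ∣ Polynomial.X ^ p - 1 := by
    apply minpoly.dvd
    simp [hpow]
  have h2 : (Polynomial.X ^ p - 1 : Polynomial ℚ)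
      = Polynomial.cyclotomic p ℚ * (Polynomial.X - 1) := by
    have : Fact p.Prime := ⟨hp⟩
    rw [Polynomial.cyclotomic_prime_mul_X_sub_one]
  rw [h2] at h1
  have hirr : Irreducible (Polynomial.cyclotomic p ℚ) := Polynomial.cyclotomic.irreducible_rat hp.pos
  have hdeg : (minpoly ℚ M).natDegree ≤ finrank ℚ V := by
    have h3 := LinearMap.minpoly_dvd_charpoly M
    have h4 := Polynomial.natDegree_le_of_dvd h3 (LinearMap.charpoly_monic M).ne_zero
    rwa [LinearMap.charpoly_natDegree] at h4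
  have hcop : IsCoprime (minpoly ℚ M) (Polynomial.cyclotomic p ℚ) := by
    rw [isCoprime_comm, hirr.coprime_iff_not_dvd]
    intro h3
    have h4 := Polynomial.natDegree_le_of_dvd h3 (minpoly.ne_zero hint)
    rw [Polynomial.natDegree_cyclotomic, Nat.totient_prime hp] at h4
    omega
  have h5 := hcop.dvd_of_dvd_mul_left h1
  have h6 : Polynomial.aeval M (Polynomial.X - 1 : Polynomial ℚ) = 0 := by
    obtain ⟨q, hq⟩ := h5
    rw [hq, map_mul, minpoly.aeval, zero_mul]
  simp only [map_sub, Polynomial.aeval_X, map_one] at h6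
  exact sub_eq_zero.mp h6

lemma trivial_of_closure {p : ℕ} (hp : p.Prime) (hV : finrank ℚ V + 1 < p)
    {x : G} (hx : x ∈ Subgroup.closure {x : G | x ^ p = 1}) : ρ x = 1 := by
  induction hx using Subgroup.closure_induction with
  | mem y hy => exact trivial_of_prime hp hV y hy
  | one => exact map_one ρ
  | mul y z _ _ hy hz => rw [map_mul ρ, hy, hz, mul_one]
  | inv y _ hy =>
    have h1 : ρ y⁻¹ * ρ y = 1 := by rw [← map_mul ρ, inv_mul_cancel, map_one]
    rwa [hy, mul_one] at h1

/-- the multiplicities at most one and the triviality of the representation give degree at most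
one -/
lemma le_one_of_trivial (hθ : IsSolvHeilbronn θ) (hb : Small θ ρ) {T : Subgroup G}
    (hT : ∀ t ∈ T, t ^ 2 = 1)
    (h1 : ∀ (η : T →* ℤˣ) (n : ℕ),
      ∑ᶠ t : T, θ t * (((signToC.comp η t)⁻¹ : ℂˣ) : ℂ) = (n : ℂ) * (Nat.card T : ℂ) → n ≤ 1)
    (htriv : ∀ t ∈ T, ρ t = 1) : finrank ℚ V ≤ 1 := by
  obtain ⟨h2, -⟩ := eq_on_el hθ hb hT h1
  apply h1 1
  have h3 : ∀ t : T, θ t * (((signToC.comp (1 : T →* ℤˣ) t)⁻¹ : ℂˣ) : ℂ) = (finrank ℚ V : ℂ) := by
    intro t
    rw [h2 t t.2]
    unfold chi Representation.character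
    rw [htriv t t.2, LinearMap.trace_one]
    simp
  rw [finsum_congr h3]
  have : Fintype T := Fintype.ofFinite T
  rw [finsum_eq_sum_of_fintype, Finset.sum_const, Finset.card_univ, nsmul_eq_mul, mul_comm,
    Nat.card_eq_fintype_card]

lemma sum_invol (f : G → ℂ) {c : G} (hc : c ^ 2 = 1) :
    2 * ∑ᶠ h : Subgroup.zpowers c, f h = (f 1 + f c) * (Nat.card (Subgroup.zpowers c) : ℂ) := by
  classical
  let C := Subgroup.zpowers c
  have : Fintype C := Fintype.ofFinite C
  let c' : C := ⟨c, Subgroup.mem_zpowers c⟩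
  by_cases h1 : c' = 1
  · have hc1 : c = 1 := congrArg Subtype.val h1
    have huniv : (Finset.univ : Finset C) = {1} := by
      ext ⟨y, hy⟩
      simp only [Finset.mem_univ, Finset.mem_singleton, true_iff]
      obtain ⟨k, rfl⟩ := zp_pow hy
      apply Subtype.ext
      change c ^ k = 1
      rw [hc1, one_pow]
    have hcard : (Nat.card C : ℂ) = 1 := by
      rw [Nat.card_eq_fintype_card, ← Finset.card_univ, huniv, Finset.card_singleton]
      norm_num
    rw [finsum_eq_sum_of_fintype, huniv, Finset.sum_singleton, hcard]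
    rw [Subgroup.coe_one, hc1]
    ring
  · have huniv : (Finset.univ : Finset C) = {1, c'} := by
      ext ⟨y, hy⟩
      simp only [Finset.mem_univ, Finset.mem_insert, Finset.mem_singleton, true_iff]
      obtain ⟨k, rfl⟩ := zp_pow hy
      rcases Nat.even_or_odd' k with ⟨j, rfl | rfl⟩
      · left
        apply Subtype.ext
        change c ^ (2 * j) = 1
        rw [pow_mul, hc, one_pow]
      · right
        apply Subtype.ext
        change c ^ (2 * j + 1) = c
        rw [pow_succ, pow_mul, hc, one_pow, one_mul]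
    have hcard : (Nat.card C : ℂ) = 2 := by
      rw [Nat.card_eq_fintype_card, ← Finset.card_univ, huniv, Finset.card_pair (Ne.symm h1)]
      norm_num
    rw [finsum_eq_sum_of_fintype, huniv, Finset.sum_pair (Ne.symm h1), hcard, Subgroup.coe_one]
    change 2 * (f 1 + f c) = _
    ring

/-- four-groups: order at most one over the three fields of index two -/
lemma four (hθ : IsSolvHeilbronn θ) {a b : G} (ha : a ^ 2 = 1) (hb : b ^ 2 = 1)
    (hab : a * b = b * a)
    (h1 : ∀ c : G, (c = a ∨ c = b ∨ c = a * b) → ∃ n : ℕ, n ≤ 1 ∧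
      ∑ᶠ h : Subgroup.zpowers c, θ h = (n : ℂ) * (Nat.card (Subgroup.zpowers c) : ℂ)) :
    (∀ t ∈ Subgroup.closure ({a, b} : Set G), t ^ 2 = 1) ∧
    (∀ (η : Subgroup.closure ({a, b} : Set G) →* ℤˣ) (n : ℕ),
      ∑ᶠ t : Subgroup.closure ({a, b} : Set G), θ t * (((signToC.comp η t)⁻¹ : ℂˣ) : ℂ)
        = (n : ℂ) * (Nat.card (Subgroup.closure ({a, b} : Set G)) : ℂ) → n ≤ 1) ∧
    (∀ r : ℕ, θ 1 = r → r ≤ 3) := by
  classical
  set T := Subgroup.closure ({a, b} : Set G) with hTdef
  have haT : a ∈ T := Subgroup.subset_closure (by simp)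
  have hbT : b ∈ T := Subgroup.subset_closure (by simp)
  have hTc := closure_pair_comm hab
  have hT : ∀ t ∈ T, t ^ 2 = 1 := by
    intro t ht
    induction ht using Subgroup.closure_induction with
    | mem y hy =>
      rcases hy with rfl | hy
      · exact ha
      · rw [Set.mem_singleton_iff] at hy
        rw [hy]; exact hb
    | one => exact one_pow 2
    | mul y z hy hz hy2 hz2 =>
      have h2 := hTc ⟨y, hy⟩ ⟨z, hz⟩
      have h3 : y * z = z * y := congrArg Subtype.val h2
      rw [(show Commute y z from h3).mul_pow, hy2, hz2, one_mul]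
    | inv y _ hy => rw [inv_pow, hy, inv_one]
  have hTs : Group.IsSolvable T := Group.isSolvable_of_comm hTc
  obtain ⟨s, hs⟩ := (hθ.heil T.subtype).comm_multiset hTc
  have hpm : ∀ (ψ : T →* ℂˣ) (t : T), ((ψ t : ℂˣ) : ℂ) = 1 ∨ ((ψ t : ℂˣ) : ℂ) = -1 := by
    intro ψ t
    have h2 : ((ψ t : ℂˣ) : ℂ) ^ 2 = 1 := by
      rw [← Units.val_pow_eq_pow_val, ← map_pow]
      have : t ^ 2 = 1 := Subtype.ext (hT t t.2)
      rw [this, map_one, Units.val_one]
    have h3 : (((ψ t : ℂˣ) : ℂ) - 1) * (((ψ t : ℂˣ) : ℂ) + 1) = 0 := by linear_combination h2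
    rcases mul_eq_zero.mp h3 with h4 | h4
    · left; linear_combination h4
    · right; linear_combination h4
  -- the number of constituents with value one at `t`
  have hfilt : ∀ t : T, θ 1 + θ t
      = 2 * ((Multiset.card (s.filter fun ψ => ((ψ t : ℂˣ) : ℂ) = 1) : ℕ) : ℂ) := by
    intro t
    have e1 := hs 1
    have e2 := hs t
    simp only [map_one, Subgroup.coe_subtype] at e1 e2
    rw [e1, e2]
    clear e1 e2 hs
    induction s using Multiset.induction_on with
    | empty => simp
    | cons ψ s ih =>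
      rw [Multiset.map_cons, Multiset.map_cons, Multiset.sum_cons, Multiset.sum_cons]
      rcases hpm ψ t with h | h
      · rw [Multiset.filter_cons_of_pos (p := fun ψ : T →* ℂˣ => ((ψ t : ℂˣ) : ℂ) = 1) _ h,
          Multiset.card_cons, h]
        push_cast
        simp only [Units.val_one] at ih ⊢
        linear_combination ih
      · have hne : ¬ ((ψ t : ℂˣ) : ℂ) = 1 := by rw [h]; norm_num
        rw [Multiset.filter_cons_of_neg (p := fun ψ : T →* ℂˣ => ((ψ t : ℂˣ) : ℂ) = 1) _ hne, h]
        simp only [Units.val_one] at ih ⊢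
        linear_combination ih
  have hle : ∀ (t : T), ((t : G) = a ∨ (t : G) = b ∨ (t : G) = a * b) →
      Multiset.card (s.filter fun ψ => ((ψ t : ℂˣ) : ℂ) = 1) ≤ 1 := by
    intro t ht
    obtain ⟨n, hn, hsum⟩ := h1 t ht
    have e1 := sum_invol θ (c := (t : G)) (hT t t.2)
    rw [hsum, hfilt t] at e1
    have hc : (Nat.card (Subgroup.zpowers (t : G)) : ℂ) ≠ 0 := by exact_mod_cast Nat.card_pos.ne'
    have e2 : ((n : ℕ) : ℂ)
        = ((Multiset.card (s.filter fun ψ => ((ψ t : ℂˣ) : ℂ) = 1) : ℕ) : ℂ) := by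
      apply mul_right_cancel₀ hc
      linear_combination (1 / 2) * e1
    have e3 := Nat.cast_injective (R := ℂ) e2
    omega
  let a' : T := ⟨a, haT⟩
  let b' : T := ⟨b, hbT⟩
  have hone : ∀ ψ : T →* ℂˣ, ((ψ a' : ℂˣ) : ℂ) = 1 ∨ ((ψ b' : ℂˣ) : ℂ) = 1 ∨
      ((ψ (a' * b') : ℂˣ) : ℂ) = 1 := by
    intro ψ
    rcases hpm ψ a' with h | h
    · exact Or.inl h
    · rcases hpm ψ b' with h' | h'
      · exact Or.inr (Or.inl h')
      · right; right
        rw [map_mul, Units.val_mul, h, h']
        norm_num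
  refine ⟨hT, ?_, ?_⟩
  · intro η n hn
    have e1 := count_mult s (signToC.comp η)
    have e2 : ((n : ℕ) : ℂ) = ((Multiset.count (signToC.comp η) s : ℕ) : ℂ) := by
      have hc : (Nat.card T : ℂ) ≠ 0 := by exact_mod_cast Nat.card_pos.ne'
      apply mul_right_cancel₀ hc
      rw [← hn, ← e1]
      refine finsum_congr fun t => ?_
      rw [← hs t]
      rfl
    rw [Nat.cast_injective (R := ℂ) e2]
    have key : ∀ t : T, ((signToC.comp η t : ℂˣ) : ℂ) = 1 →
        ((t : G) = a ∨ (t : G) = b ∨ (t : G) = a * b) →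
        Multiset.count (signToC.comp η) s ≤ 1 := by
      intro t ht htc
      have h3 := hle t htc
      have h4 : Multiset.count (signToC.comp η) (s.filter fun ψ => ((ψ t : ℂˣ) : ℂ) = 1)
          = Multiset.count (signToC.comp η) s := Multiset.count_filter_of_pos ht
      rw [← h4]
      exact (Multiset.count_le_card _ _).trans h3
    rcases hone (signToC.comp η) with h | h | h
    · exact key a' h (Or.inl rfl)
    · exact key b' h (Or.inr (Or.inl rfl))
    · exact key (a' * b') h (Or.inr (Or.inr rfl))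
  · intro r hr
    have e1 := hs 1
    simp only [map_one, Units.val_one, Multiset.map_const', Multiset.sum_replicate, nsmul_eq_mul,
      mul_one] at e1
    rw [hr] at e1
    have e2 : r = Multiset.card s := by exact_mod_cast e1
    rw [e2]
    have e3 : s ≤ (s.filter fun ψ => ((ψ a' : ℂˣ) : ℂ) = 1)
        + (s.filter fun ψ => ((ψ b' : ℂˣ) : ℂ) = 1)
        + (s.filter fun ψ => ((ψ (a' * b') : ℂˣ) : ℂ) = 1) := by
      rw [Multiset.le_iff_count]
      intro ψ
      rw [Multiset.count_add, Multiset.count_add]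
      rcases hone ψ with h | h | h
      · rw [Multiset.count_filter_of_pos (p := fun ψ : T →* ℂˣ => ((ψ a' : ℂˣ) : ℂ) = 1) h]
        omega
      · rw [Multiset.count_filter_of_pos (p := fun ψ : T →* ℂˣ => ((ψ b' : ℂˣ) : ℂ) = 1) h]
        omega
      · rw [Multiset.count_filter_of_pos (p := fun ψ : T →* ℂˣ => ((ψ (a' * b') : ℂˣ) : ℂ) = 1) h]
        omega
    have e4 := Multiset.card_le_card e3
    rw [Multiset.card_add, Multiset.card_add] at e4
    have f1 := hle a' (Or.inl rfl)
    have f2 := hle b' (Or.inr (Or.inl rfl))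
    have f3 := hle (a' * b') (Or.inr (Or.inr rfl))
    omega

end Pool.Agent.R362.BS
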